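import Pool.Agent.H260R3.Defs

namespace H260R3
open scoped BigOperators

private theorem AA_small (c δ K M : ℝ) (hc : 0 < c) (hδ : 0 < δ) (hK : 0 < K) :
    ∀ᶠ v : ℕ in Filter.atTop, K * (v : ℝ) ^ (1 - δ) + M ≤ c * v := by
  have h1 : Filter.Tendsto (fun v : ℕ => (v : ℝ) ^ (-δ)) Filter.atTop (nhds 0) :=
    (tendsto_rpow_neg_atTop hδ).comp tendsto_natCast_atTop_atTop
  have h2 : ∀ᶠ v : ℕ in Filter.atTop, (v : ℝ) ^ (-δ) ≤ c / (2 * K) :=
    (h1.eventually (gt_mem_nhds (by positivity))).mono fun v hv => le_of_lt hv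
  have h3 : ∀ᶠ v : ℕ in Filter.atTop, 2 * M / c ≤ (v : ℝ) :=
    tendsto_natCast_atTop_atTop.eventually_ge_atTop _
  filter_upwards [h2, h3, Filter.eventually_ge_atTop 1] with v hv2 hv3 hv1
  have hv0 : (0 : ℝ) < v := by exact_mod_cast hv1
  have e : (v : ℝ) ^ (1 - δ) = v * (v : ℝ) ^ (-δ) := by
    rw [sub_eq_add_neg, Real.rpow_add hv0, Real.rpow_one]
  rw [e]
  rw [div_le_iff₀ hc] at hv3
  have h4 : K * (v * (v : ℝ) ^ (-δ)) ≤ K * (v * (c / (2 * K))) := by gcongr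
  have h5 : K * (v * (c / (2 * K))) = c * v / 2 := by field_simp
  linarith

/-- AA -/
theorem asym (D e : ℕ) (he : 2 ≤ e) (hD : 1 ≤ D) (p : ℕ) (N : ℕ → ℕ)
    (hN : ∀ A q n : ℕ, 0 < A → 0 < q → n ≤ A ^ e →
      ((q ^ e) ^ D) ^ n ≤ N (6 * e * A * q + 2 * p + n) *
        (6 * e * A * q + 2 * p + n) ^ (6 * e * A * q + 2 * p)) (ε : ℝ) (hε : 0 < ε) :
    ∀ᶠ v : ℕ in Filter.atTop, (((D * (e - 1) : ℕ) : ℝ) - ε) * (v * Real.log v) ≤ Real.log (N v) := by
  have hD' : (1 : ℝ) ≤ D := by exact_mod_cast hD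
  have he' : (2 : ℝ) ≤ e := by exact_mod_cast he
  set δ : ℝ := min (ε / (3 * D * e)) (1 / 4) with hδ
  have hδ0 : 0 < δ := lt_min (by positivity) (by norm_num)
  have hδ1 : δ ≤ 1 / 4 := min_le_right _ _
  have hδ2 : D * e * δ ≤ ε / 3 := by
    have : δ ≤ ε / (3 * D * e) := min_le_left _ _
    rw [le_div_iff₀ (by positivity)] at this
    linarith
  set b : ℝ := 1 - (e : ℝ)⁻¹ - δ with hb
  have hinv : (e : ℝ)⁻¹ ≤ 1 / 2 := by
    rw [inv_le_comm₀ (by positivity) (by norm_num)]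
    norm_num
    exact he
  have hinv0 : 0 < (e : ℝ)⁻¹ := by positivity
  have hb0 : 0 < b := by rw [hb]; linarith
  have hb1 : b ≤ 1 := by rw [hb]; linarith
  have E1 := AA_small 1 δ (12 * e) (2 * p) one_pos hδ0 (by positivity)
  have E3 := AA_small (ε / (3 * (D * e + 1))) δ (12 * e) (2 * p) (by positivity) hδ0 (by positivity)
  have E2 : ∀ᶠ v : ℕ in Filter.atTop, 2 ≤ (v : ℝ) ^ b :=
    ((tendsto_rpow_atTop hb0).comp tendsto_natCast_atTop_atTop).eventually_ge_atTop 2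
  have E4 : ∀ᶠ v : ℕ in Filter.atTop, D * e * Real.log 2 / (ε / 3) ≤ Real.log v :=
    (Real.tendsto_log_atTop.comp tendsto_natCast_atTop_atTop).eventually_ge_atTop _
  filter_upwards [E1, E2, E3, E4, Filter.eventually_ge_atTop 1] with v h1 h2 h3 h4 hv1
  have hv0 : (0 : ℝ) < v := by exact_mod_cast hv1
  have hv1' : (1 : ℝ) ≤ v := by exact_mod_cast hv1
  have hL0 : 0 ≤ Real.log v := Real.log_nonneg hv1'
  set x : ℝ := (v : ℝ) ^ ((e : ℝ)⁻¹) with hx
  set y : ℝ := (v : ℝ) ^ b with hy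
  have hx1 : 1 ≤ x := Real.one_le_rpow hv1' hinv0.le
  have hxy : x * y = (v : ℝ) ^ (1 - δ) := by
    rw [hx, hy, ← Real.rpow_add hv0]
    congr 1
    rw [hb]; ring
  have hxe : x ^ e = v := Real.rpow_inv_natCast_pow hv0.le (by omega)
  set A : ℕ := ⌈x⌉₊ with hA
  set q : ℕ := ⌊y⌋₊ with hq
  have hA1 : x ≤ A := Nat.le_ceil x
  have hA2 : (A : ℝ) ≤ 2 * x := by
    have := Nat.ceil_lt_add_one (show 0 ≤ x by linarith)
    linarith
  have hq1 : (q : ℝ) ≤ y := Nat.floor_le (by linarith)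
  have hq2 : y / 2 ≤ q := by
    have := Nat.sub_one_lt_floor y
    linarith
  have hq0 : 0 < q := by
    have : (0 : ℝ) < q := by linarith
    exact_mod_cast this
  have hA0 : 0 < A := by
    have : (0 : ℝ) < A := by linarith
    exact_mod_cast this
  obtain ⟨m, hm⟩ : ∃ m : ℕ, m = 6 * e * A * q + 2 * p := ⟨_, rfl⟩
  have hmr : (m : ℝ) ≤ 12 * e * (v : ℝ) ^ (1 - δ) + 2 * p := by
    rw [hm, ← hxy]
    push_cast
    have : (A : ℝ) * q ≤ (2 * x) * y := mul_le_mul hA2 hq1 (by positivity) (by positivity)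
    nlinarith
  have hmv : m ≤ v := by
    have : (m : ℝ) ≤ v := by linarith
    exact_mod_cast this
  obtain ⟨n, hn⟩ : ∃ n : ℕ, m + n = v := ⟨v - m, by omega⟩
  have hnA : n ≤ A ^ e := by
    have h5 : (v : ℝ) ≤ (A : ℝ) ^ e := by
      rw [← hxe]
      exact pow_le_pow_left₀ (by linarith) hA1 e
    have h6 : v ≤ A ^ e := by exact_mod_cast h5
    omega
  have hmain := hN A q n hA0 hq0 hnA
  rw [← hm, hn] at hmain
  have hmain' : (((q : ℝ) ^ e) ^ D) ^ n ≤ (N v : ℝ) * (v : ℝ) ^ m := by exact_mod_cast hmain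
  have hq0' : (0 : ℝ) < q := by exact_mod_cast hq0
  have hNv : (0 : ℝ) < N v := by
    have h5 : (0 : ℝ) < (((q : ℝ) ^ e) ^ D) ^ n := by positivity
    have h6 : (0 : ℝ) < (N v : ℝ) * (v : ℝ) ^ m := lt_of_lt_of_le h5 hmain'
    exact pos_of_mul_pos_left h6 (by positivity)
  have hlog : (n : ℝ) * (D * (e * Real.log q)) ≤ Real.log (N v) + m * Real.log v := by
    have h5 := Real.log_le_log (by positivity) hmain'
    rwa [Real.log_pow, Real.log_pow, Real.log_pow, Real.log_mul hNv.ne' (by positivity),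
      Real.log_pow] at h5
  have hlogq : b * Real.log v - Real.log 2 ≤ Real.log q := by
    have h5 : Real.log (y / 2) ≤ Real.log q := Real.log_le_log (by positivity) hq2
    rwa [Real.log_div (by positivity) (by norm_num), hy, Real.log_rpow hv0] at h5
  have hn0 : (0 : ℝ) ≤ n := Nat.cast_nonneg n
  have hm0 : (0 : ℝ) ≤ m := Nat.cast_nonneg m
  have hnr : (n : ℝ) = v - m := by
    have : (m : ℝ) + n = v := by exact_mod_cast hn
    linarith
  rw [div_le_iff₀ (by positivity)] at h4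
  have hm3 : (m : ℝ) * (D * e + 1) ≤ ε / 3 * v := by
    have h5 : (m : ℝ) ≤ ε / (3 * (D * e + 1)) * v := hmr.trans h3
    have h6 : (m : ℝ) * (D * e + 1) ≤ (ε / (3 * (D * e + 1)) * v) * (D * e + 1) := by gcongr
    have h7 : (ε / (3 * ((D : ℝ) * e + 1)) * v) * (D * e + 1) = ε / 3 * v := by field_simp
    linarith
  have hcast : ((D * (e - 1) : ℕ) : ℝ) = D * e - D := by
    rw [Nat.cast_mul, Nat.cast_sub (by omega)]
    push_cast; ring
  have hDeb : (D : ℝ) * e * b = D * e - D - D * e * δ := by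
    rw [hb]; field_simp
  set L : ℝ := Real.log v with hL
  have hlog2 : 0 ≤ Real.log 2 := Real.log_nonneg (by norm_num)
  -- lower bound of the main term
  have g1 : (n : ℝ) * (D * e * b * L - D * e * Real.log 2) ≤ (n : ℝ) * (D * (e * Real.log q)) := by
    apply mul_le_mul_of_nonneg_left _ hn0
    have : D * e * (b * L - Real.log 2) ≤ D * e * Real.log q :=
      mul_le_mul_of_nonneg_left hlogq (by positivity)
    linarith
  have g2 : (v : ℝ) * (D * e * δ) * L ≤ v * (ε / 3) * L := by gcongr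
  have g3 : (v : ℝ) * (D * e * Real.log 2) ≤ v * (L * (ε / 3)) := by gcongr
  have g4 : (m : ℝ) * (D * e * b * L) ≤ m * (D * e * L) := by
    apply mul_le_mul_of_nonneg_left _ hm0
    have : (D : ℝ) * e * L * b ≤ D * e * L * 1 := mul_le_mul_of_nonneg_left hb1 (by positivity)
    linarith
  have g5 : (m : ℝ) * (D * e + 1) * L ≤ ε / 3 * v * L := mul_le_mul_of_nonneg_right hm3 hL0
  have g6 : 0 ≤ (m : ℝ) * (D * e * Real.log 2) := by positivity
  have g7 : (n : ℝ) * (D * e * b * L - D * e * Real.log 2) =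
      v * (D * e - D) * L - v * (D * e * δ) * L - v * (D * e * Real.log 2) -
      m * (D * e * b * L) + m * (D * e * Real.log 2) := by
    rw [hnr, hDeb]; ring
  rw [hcast]
  have g8 : ((D : ℝ) * e - D - ε) * (v * L) = v * (D * e - D) * L - 3 * (ε / 3 * v * L) := by ring
  rw [g8]
  linarith [g1, g2, g3, g4, g5, g6, g7, hlog]

end H260R3
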