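import Pool.Agent.H260R3.Defs

namespace H260R3
open scoped BigOperators

/-- AB -/
theorem liminf_of_asym (D : ℝ) (N : ℕ → ℕ) (h : ∀ ε : ℝ, 0 < ε →
    ∀ᶠ v : ℕ in Filter.atTop, (D - ε) * (v * Real.log v) ≤ Real.log (N v)) :
    ((D : ℝ) : EReal) ≤
      Filter.liminf (fun v : ℕ => ((Real.log (N v) / (v * Real.log v) : ℝ) : EReal)) Filter.atTop := by
  refine le_of_forall_lt_imp_le_of_dense fun c hc => ?_
  obtain ⟨x, hcx, hxD⟩ := EReal.lt_iff_exists_real_btwn.1 hc
  have hxD' : x < D := by exact_mod_cast hxD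
  refine hcx.le.trans ?_
  refine Filter.le_liminf_of_le (by isBoundedDefault) ?_
  filter_upwards [h (D - x) (by linarith), Filter.eventually_ge_atTop 2] with v hv hv2
  have hv2' : (2 : ℝ) ≤ v := by exact_mod_cast hv2
  have hlog : 0 < Real.log v := Real.log_pos (by linarith)
  have hpos : 0 < (v : ℝ) * Real.log v := by positivity
  have : x ≤ Real.log (N v) / (v * Real.log v) := by
    rw [le_div_iff₀ hpos]
    have e : D - (D - x) = x := by ring
    rw [e] at hv
    exact hv
  exact_mod_cast this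

end H260R3
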