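import Mathlib

/-!
# MP_18b2cf_co: many combinatorial types of `d`-polytopes -- definitions

Part 1: convex `d`-polytopes in `ℝ^d`, their face lattices, the number `numTypes d v` of
combinatorial types of `d`-polytopes with `v` vertices.
Part 2: configurations, given by affine functions.
Part 3: the explicit construction.
-/

namespace H260R3

open scoped BigOperators

/-! ### Part 1: polytopes -/

/-- The convex `d`-polytopes of `ℝ^d` (convex hull of finitely many points, nonempty interior)
with exactly `v` vertices. -/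
def Polytope (d v : ℕ) : Type :=
  {P : Set (Fin d → ℝ) // (∃ S : Finset (Fin d → ℝ), P = convexHull ℝ (S : Set (Fin d → ℝ))) ∧
    (interior P).Nonempty ∧ (P.extremePoints ℝ).ncard = v}

/-- The faces of `P` (the empty set, `P` and the intersections of `P` with its supporting
hyperplanes), ordered by inclusion. -/
abbrev Face {d : ℕ} (P : Set (Fin d → ℝ)) : Type := {F : Set (Fin d → ℝ) // IsExposed ℝ P F}

/-- Combinatorial equivalence: the face lattices are isomorphic as partially ordered sets. -/
def combEquiv (d v : ℕ) : Setoid (Polytope d v) where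
  r P Q := Nonempty (Face P.1 ≃o Face Q.1)
  iseqv := ⟨fun _ => ⟨OrderIso.refl _⟩, fun ⟨f⟩ => ⟨f.symm⟩, fun ⟨f⟩ ⟨g⟩ => ⟨f.trans g⟩⟩

/-- The number `N_d(v)` of combinatorial types of convex `d`-polytopes with `v` vertices. -/
noncomputable def numTypes (d v : ℕ) : ℕ := Nat.card (Quotient (combEquiv d v))

/-! ### Part 2: configurations -/

/-- Value at `x` of the affine function with constant term `c` and linear coefficients `a`. -/
noncomputable def aff {J : Type} [Fintype J] (c : ℝ) (a : J → ℝ) (x : J → ℝ) : ℝ :=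
  c + ∑ k, a k * x k

/-- `S` is the set of indices of the points of the configuration on some face. -/
def IsFaceSet {ι J : Type} [Fintype J] (V : ι → J → ℝ) (S : Set ι) : Prop :=
  ∃ (c : ℝ) (a : J → ℝ), (∀ i ∈ S, aff c a (V i) = 0) ∧ ∀ i ∉ S, 0 < aff c a (V i)

/-- Every point of the configuration is exposed, and the configuration affinely spans. -/
structure Good {ι J : Type} [Fintype J] (V : ι → J → ℝ) : Prop where
  vert : ∀ i, IsFaceSet V {i}
  span : ∀ (c : ℝ) (a : J → ℝ), (∀ i, aff c a (V i) = 0) → c = 0 ∧ a = 0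

/-! ### Part 3: the construction -/

/-- Coordinates: `x_j`, `y_j` (`j : Fin e`) and `ζ_z` (`z : Fin p`). -/
abbrev Crd (e p : ℕ) : Type := (Fin e ⊕ Fin e) ⊕ Fin p

/-- Labels of the base points: `(j, u, κ, a, b)` in the `j`-th block and `(z, b)` for the apexes. -/
abbrev BLab (e p A q : ℕ) : Type := (Fin e × Fin A × Fin 3 × Fin q × Bool) ⊕ (Fin p × Bool)

/-- All labels: base points and `n` free points. -/
abbrev Lab (e p A q n : ℕ) : Type := BLab e p A q ⊕ Fin n

/-- The digits of a free point. -/
abbrev Dig (e p : ℕ) : Type := (Fin e × Bool) ⊕ Fin p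

/-- `ε`. -/
noncomputable def eps (e p q : ℕ) : ℝ := 1 / (100 * (e + p) * ((q : ℝ) ^ e) ^ 2)

/-- `η`. -/
noncomputable def eta (e : ℕ) : ℝ := 1 / (100 * e)

/-- Cluster centres. -/
noncomputable def cc : Fin 3 → ℝ := ![0, 1, 3]

/-- Cluster directions. -/
noncomputable def lam : Fin 3 → ℝ := ![3 / 4, 3 / 2, -3 / 2]

/-- The sign of a Boolean. -/
noncomputable def sg (b : Bool) : ℝ := if b then 1 else -1

/-- Local position (centre of a pair). -/
noncomputable def xpos (e p q : ℕ) (j : Fin e) (κ : Fin 3) (a : Fin q) : ℝ :=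
  cc κ - lam κ * (eps e p q * ((a : ℕ) : ℝ) * (q : ℝ) ^ (j : ℕ))

/-- Global position of a base point. -/
noncomputable def spos (e p q : ℕ) {A : ℕ} (j : Fin e) (u : Fin A) (κ : Fin 3) (a : Fin q)
    (b : Bool) : ℝ :=
  ((u : ℕ) : ℝ) + 1 + eta e * (xpos e p q j κ a + sg b * (eps e p q / 8))

/-- The base point at position `s` in block `j`. -/
noncomputable def bpt (e p : ℕ) (j : Fin e) (s : ℝ) : Crd e p → ℝ
  | Sum.inl (Sum.inl j') => if j' = j then 1 / s else 0
  | Sum.inl (Sum.inr j') => if j' = j then 1 / s ^ 2 else 0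
  | Sum.inr _ => 0

/-- The apex `(z, b)`. -/
noncomputable def apt (e p : ℕ) (z : Fin p) (b : Bool) : Crd e p → ℝ
  | Sum.inl _ => 0
  | Sum.inr z' => if z' = z then sg b else 0

section free

variable (e p q : ℕ) [NeZero e] (t : Dig e p → ℝ) (U : Fin e → ℝ)

/-- Perturbation at the first cluster of block `j`. -/
noncomputable def b1 (j : Fin e) : ℝ := -eps e p q * (t (Sum.inl (j, false)) - 1 / 2)

/-- Perturbation at the second cluster of block `j`. -/
noncomputable def b2 (j : Fin e) : ℝ := -eps e p q * (t (Sum.inl (j, true)) - 1 / 2)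

/-- Leading coefficient in block `j`. -/
noncomputable def al (j : Fin e) : ℝ := 1 / 3 + (b2 e p q t j - 3 * b1 e p q t j) / 6

/-- Linear coefficient in block `j`. -/
noncomputable def be (j : Fin e) : ℝ := -4 / 3 + (9 * b1 e p q t j - b2 e p q t j) / 6

/-- Coefficient of the extra coordinate `z`. -/
noncomputable def zt (z : Fin p) : ℝ :=
  -(eps e p q / 2) * (t (Sum.inr z) - t (Sum.inl (0, false)))

/-- Homogeneous last coordinate of a free point. -/
noncomputable def zh : ℝ :=
  eta e ^ 2 * (1 + ∑ z, zt e p q t z) +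
    ∑ j, (al e p q t j * U j ^ 2 - be e p q t j * eta e * U j)

/-- The free point with digits `t` and address `U`. -/
noncomputable def fpt : Crd e p → ℝ
  | Sum.inl (Sum.inl j) => (al e p q t j * U j - be e p q t j * eta e / 2) / zh e p q t U
  | Sum.inl (Sum.inr j) => al e p q t j / zh e p q t U
  | Sum.inr z => eta e ^ 2 * zt e p q t z / zh e p q t U

/-- The main quadratic expression. -/
noncomputable def gplus (s s' : Fin e → ℝ) : ℝ :=
  eta e ^ 2 + ∑ j, (al e p q t j * (s j - U j) * (s' j - U j) +
    be e p q t j * eta e / 2 * (s j + s' j - 2 * U j))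

end free

/-- Linear coefficients of the functional with roots `s`, `s'` and extra coefficients `δ`. -/
noncomputable def gco (e p : ℕ) (s s' : Fin e → ℝ) (δ : Fin p → ℝ) : Crd e p → ℝ
  | Sum.inl (Sum.inl j) => -(s j + s' j)
  | Sum.inl (Sum.inr j) => s j * s' j
  | Sum.inr z => -δ z

/-- The digit vector of a free point as reals. -/
noncomputable def digR {e p q : ℕ} (τ : Dig e p → Fin (q ^ e)) : Dig e p → ℝ :=
  fun k => ((τ k : ℕ) : ℝ)

/-- The address of a free point as reals. -/
noncomputable def addR {e A : ℕ} (u : Fin e → Fin A) : Fin e → ℝ := fun j => ((u j : ℕ) : ℝ) + 1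

/-- The configuration. -/
noncomputable def conf (e p A q n : ℕ) [NeZero e] (addr : Fin n → Fin e → Fin A)
    (τ : Fin n → Dig e p → Fin (q ^ e)) : Lab e p A q n → Crd e p → ℝ
  | Sum.inl (Sum.inl (j, u, κ, a, b)) => bpt e p j (spos e p q j u κ a b)
  | Sum.inl (Sum.inr (z, b)) => apt e p z b
  | Sum.inr i => fpt e p q (digR (τ i)) (addR (addr i))

/-- The clusters used to read digit `k`. -/
def kap {e p : ℕ} [NeZero e] : Dig e p → Fin e → Fin 3
  | Sum.inl (j0, b) => fun j => if j = j0 then (if b then 2 else 1) else 0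
  | Sum.inr _ => fun j => if j = 0 then 1 else 0

/-- The apexes used to read digit `k`. -/
def del {e p : ℕ} : Dig e p → Fin p → Bool
  | Sum.inl _ => fun _ => true
  | Sum.inr z => fun z' => if z' = z then false else true

/-- The candidate facet reading digit `k` at address `u` with offsets `a`. -/
def fset {e p A q n : ℕ} [NeZero e] (u : Fin e → Fin A) (k : Dig e p) (a : Fin e → Fin q) :
    Set (Lab e p A q n) :=
  {l | (∃ j b, l = Sum.inl (Sum.inl (j, u j, kap k j, a j, b))) ∨
    ∃ z, l = Sum.inl (Sum.inr (z, del k z))}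

end H260R3
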