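import Pool.Agent.H260R3.MK
import Pool.Agent.H260R3.AA
import Pool.Agent.H260R3.AB

namespace H260R3

/-- final -/
theorem final (d : ℕ) (hd : 4 ≤ d) :
    (((d * (d / 2 - 1) : ℕ) : ℝ) : EReal) ≤
      Filter.liminf (fun v : ℕ => ((Real.log (numTypes d v) / (v * Real.log v) : ℝ) : EReal))
        Filter.atTop := by
  have he : 2 ≤ d / 2 := by omega
  apply liminf_of_asym
  intro ε hε
  obtain ⟨p, hp⟩ : ∃ p, d = 2 * (d / 2) + p := ⟨d - 2 * (d / 2), by omega⟩
  have := asym d (d / 2) he (by omega) p (numTypes d) (by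
    intro A q n hA hq hn
    have h := main_count (d / 2) p A q n he hA hq hn
    rw [← hp] at h
    exact h) ε hε
  exact this

end H260R3
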