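import Pool.Agent.H260R3.Defs

namespace H260R3
open scoped BigOperators

/-- MA1 -/
theorem aff_bpt (e p : ℕ) (c : ℝ) (a : Crd e p → ℝ) (j : Fin e) (s₀ : ℝ) :
    aff c a (bpt e p j s₀) = c + a (Sum.inl (Sum.inl j)) / s₀ + a (Sum.inl (Sum.inr j)) / s₀ ^ 2 := by
  unfold aff
  rw [Fintype.sum_sum_type, Fintype.sum_sum_type]
  simp only [bpt, mul_ite, mul_zero, Finset.sum_ite_eq', Finset.mem_univ, if_true,
    Finset.sum_const_zero, add_zero]
  ring

/-- MA2 -/
theorem aff_apt (e p : ℕ) (c : ℝ) (a : Crd e p → ℝ) (z : Fin p) (b : Bool) :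
    aff c a (apt e p z b) = c + a (Sum.inr z) * sg b := by
  unfold aff
  rw [Fintype.sum_sum_type]
  simp only [apt, mul_ite, mul_zero, Finset.sum_ite_eq', Finset.mem_univ, if_true,
    Finset.sum_const_zero, zero_add]

/-- MA3 -/
theorem aff_fpt (e p q : ℕ) [NeZero e] (t : Dig e p → ℝ) (U s s' : Fin e → ℝ) (δ : Fin p → ℝ)
    (hz : zh e p q t U ≠ 0) :
    aff 1 (gco e p s s' δ) (fpt e p q t U) =
      (gplus e p q t U s s' + ∑ z, (1 - δ z) * (eta e ^ 2 * zt e p q t z)) / zh e p q t U := by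
  have h1 : aff 1 (gco e p s s' δ) (fpt e p q t U) =
      (zh e p q t U + ((∑ j, (-(s j + s' j)) * (al e p q t j * U j - be e p q t j * eta e / 2)
        + ∑ j, (s j * s' j) * al e p q t j) + ∑ z, (-δ z) * (eta e ^ 2 * zt e p q t z)))
        / zh e p q t U := by
    unfold aff
    rw [Fintype.sum_sum_type, Fintype.sum_sum_type, add_div, div_self hz, add_div, add_div,
      Finset.sum_div, Finset.sum_div, Finset.sum_div]
    simp only [gco, fpt, mul_div_assoc]
  rw [h1]
  congr 1
  unfold gplus zh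
  have h2 : ∑ z, (1 - δ z) * (eta e ^ 2 * zt e p q t z)
      = eta e ^ 2 * ∑ z, zt e p q t z + ∑ z, (-δ z) * (eta e ^ 2 * zt e p q t z) := by
    rw [Finset.mul_sum, ← Finset.sum_add_distrib]
    apply Finset.sum_congr rfl
    intro z _
    ring
  have h3 : ∑ j, (al e p q t j * (s j - U j) * (s' j - U j) +
      be e p q t j * eta e / 2 * (s j + s' j - 2 * U j))
      = ∑ j, (al e p q t j * U j ^ 2 - be e p q t j * eta e * U j)
        + (∑ j, (-(s j + s' j)) * (al e p q t j * U j - be e p q t j * eta e / 2)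
        + ∑ j, (s j * s' j) * al e p q t j) := by
    rw [← Finset.sum_add_distrib, ← Finset.sum_add_distrib]
    apply Finset.sum_congr rfl
    intro z _
    ring
  rw [h2, h3]
  ring

end H260R3
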