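import Pool.Agent.H260R3.Defs

namespace H260R3
open scoped BigOperators

private theorem MB_eps (e p q : ℕ) (he : 2 ≤ e) (hR : (1 : ℝ) ≤ (q : ℝ) ^ e) :
    0 < eps e p q ∧ eps e p q * (q : ℝ) ^ e ≤ 1 / (100 * (e + p)) ∧
    eps e p q * (q : ℝ) ^ e ≤ 1 / 200 ∧ eps e p q ≤ 1 / 200 := by
  have he' : (2 : ℝ) ≤ e := by exact_mod_cast he
  have hp : (0 : ℝ) ≤ p := by positivity
  have hep : (2 : ℝ) ≤ e + p := by linarith
  set R : ℝ := (q : ℝ) ^ e with hRdef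
  have h1 : 0 < eps e p q := by
    unfold eps
    positivity
  have h2 : eps e p q * R ≤ 1 / (100 * (e + p)) := by
    unfold eps
    rw [← hRdef, div_mul_eq_mul_div, one_mul, div_le_div_iff₀ (by positivity) (by positivity)]
    have : R * (100 * ((e : ℝ) + p)) ≤ 1 * (100 * (e + p) * R ^ 2) := by
      have h : R ≤ R ^ 2 := by nlinarith
      nlinarith
    exact this
  have h3 : (1 : ℝ) / (100 * (e + p)) ≤ 1 / 200 := by
    apply one_div_le_one_div_of_le (by norm_num)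
    linarith
  have h4 : eps e p q ≤ eps e p q * R := le_mul_of_one_le_right h1.le hR
  exact ⟨h1, h2, h2.trans h3, h4.trans (h2.trans h3)⟩

private theorem MB_dig (e p q : ℕ) [NeZero e] (τ : Dig e p → Fin (q ^ e)) :
    (1 : ℝ) ≤ (q : ℝ) ^ e ∧ ∀ k, 0 ≤ digR τ k ∧ digR τ k ≤ (q : ℝ) ^ e - 1 := by
  have hk : ∀ k, 0 ≤ digR τ k ∧ digR τ k ≤ (q : ℝ) ^ e - 1 := by
    intro k
    unfold digR
    refine ⟨by positivity, ?_⟩
    have h : ((τ k : ℕ)) + 1 ≤ q ^ e := (τ k).2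
    have h' : (((τ k : ℕ) : ℝ)) + 1 ≤ (q : ℝ) ^ e := by exact_mod_cast h
    linarith
  refine ⟨?_, hk⟩
  have := hk (Sum.inl (0, false))
  linarith [this.1, this.2]

private theorem MB_b (x ε R : ℝ) (h0 : 0 ≤ x) (h1 : x ≤ R - 1) (hε : 0 < ε)
    (h : ε * R ≤ 1 / 200) : |(-ε * (x - 1 / 2))| ≤ 1 / 200 := by
  rw [abs_le]
  constructor <;> nlinarith

/-- MB1 -/
theorem coef_bounds (e p q : ℕ) [NeZero e] (he : 2 ≤ e) (τ : Dig e p → Fin (q ^ e)) (j : Fin e) :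
    1 / 4 ≤ al e p q (digR τ) j ∧ al e p q (digR τ) j ≤ 1 / 2 ∧
    -2 ≤ be e p q (digR τ) j ∧ be e p q (digR τ) j ≤ -1 := by
  obtain ⟨hR, hd⟩ := MB_dig e p q τ
  obtain ⟨h1, h2, h3, h4⟩ := MB_eps e p q he hR
  have hb1 : |b1 e p q (digR τ) j| ≤ 1 / 200 :=
    MB_b _ _ _ (hd _).1 (hd _).2 h1 h3
  have hb2 : |b2 e p q (digR τ) j| ≤ 1 / 200 :=
    MB_b _ _ _ (hd _).1 (hd _).2 h1 h3
  rw [abs_le] at hb1 hb2
  unfold al be
  refine ⟨?_, ?_, ?_, ?_⟩ <;> linarith [hb1.1, hb1.2, hb2.1, hb2.2]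

/-- MB2 -/
theorem zt_bound (e p q : ℕ) [NeZero e] (he : 2 ≤ e) (τ : Dig e p → Fin (q ^ e)) (δ : Fin p → ℝ)
    (hδ : ∀ z, |δ z| ≤ 1) :
    |∑ z, (1 - δ z) * zt e p q (digR τ) z| ≤ 1 / 100 := by
  obtain ⟨hR, hd⟩ := MB_dig e p q τ
  obtain ⟨h1, h2, h3, h4⟩ := MB_eps e p q he hR
  have hterm : ∀ z, |(1 - δ z) * zt e p q (digR τ) z| ≤ 1 / (100 * (e + p)) := by
    intro z
    rw [abs_mul]
    have ha : |1 - δ z| ≤ 2 := by
      have := abs_le.1 (hδ z)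
      rw [abs_le]
      constructor <;> linarith [this.1, this.2]
    have hb : |zt e p q (digR τ) z| ≤ eps e p q * (q : ℝ) ^ e / 2 := by
      unfold zt
      have hx := hd (Sum.inr z)
      have hy := hd (Sum.inl (0, false))
      rw [abs_le]
      constructor <;> nlinarith [hx.1, hx.2, hy.1, hy.2]
    calc |1 - δ z| * |zt e p q (digR τ) z| ≤ 2 * (eps e p q * (q : ℝ) ^ e / 2) := by
          gcongr
      _ = eps e p q * (q : ℝ) ^ e := by ring
      _ ≤ _ := h2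
  refine (Finset.abs_sum_le_sum_abs _ _).trans ((Finset.sum_le_sum fun z _ => hterm z).trans ?_)
  rw [Finset.sum_const, Finset.card_univ, Fintype.card_fin, nsmul_eq_mul, mul_one_div]
  have he' : (2 : ℝ) ≤ e := by exact_mod_cast he
  have hp : (0 : ℝ) ≤ p := by positivity
  rw [div_le_div_iff₀ (by positivity) (by norm_num)]
  linarith

/-- MB3 -/
theorem zh_pos (e p q : ℕ) [NeZero e] (he : 2 ≤ e) (τ : Dig e p → Fin (q ^ e)) {A : ℕ}
    (u : Fin e → Fin A) : 0 < zh e p q (digR τ) (addR u) := by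
  have hz := zt_bound e p q he τ (fun _ => 0) (fun _ => by simp)
  simp only [sub_zero, one_mul] at hz
  have hz' := (abs_le.1 hz).1
  have he' : (2 : ℝ) ≤ e := by exact_mod_cast he
  have heta : 0 < eta e := by
    unfold eta
    positivity
  unfold zh
  have h1 : 0 < eta e ^ 2 * (1 + ∑ z, zt e p q (digR τ) z) := by
    have : 0 < 1 + ∑ z, zt e p q (digR τ) z := by linarith
    positivity
  have h2 : 0 ≤ ∑ j, (al e p q (digR τ) j * addR u j ^ 2 -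
      be e p q (digR τ) j * eta e * addR u j) := by
    refine Finset.sum_nonneg fun j _ => ?_
    obtain ⟨ha, _, _, hb⟩ := coef_bounds e p q he τ j
    have hU : 0 ≤ addR u j := by
      unfold addR
      positivity
    have h3 : 0 ≤ al e p q (digR τ) j * addR u j ^ 2 := by
      have : 0 ≤ al e p q (digR τ) j := by linarith
      positivity
    have h4 : 0 ≤ (-be e p q (digR τ) j) * eta e * addR u j := by
      have : 0 ≤ -be e p q (digR τ) j := by linarith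
      positivity
    linarith
  linarith

/-- MB4 -/
theorem xpos_bound (e p q : ℕ) (he : 2 ≤ e) (j : Fin e) (κ : Fin 3) (a : Fin q) (b : Bool) :
    |xpos e p q j κ a + sg b * (eps e p q / 8)| ≤ 4 := by
  have hq : 1 ≤ q := Nat.one_le_of_lt a.2
  have hq' : (1 : ℝ) ≤ q := by exact_mod_cast hq
  have hR : (1 : ℝ) ≤ (q : ℝ) ^ e := one_le_pow₀ hq'
  obtain ⟨h1, h2, h3, h4⟩ := MB_eps e p q he hR
  have hcc : |cc κ| ≤ 3 := by
    fin_cases κ <;> simp [cc]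
  have hlam : |lam κ| ≤ 3 / 2 := by
    fin_cases κ <;> simp [lam, abs_le] <;> norm_num
  have hsg : |sg b| = 1 := by
    cases b <;> simp [sg]
  have haq : ((a : ℕ) : ℝ) * (q : ℝ) ^ (j : ℕ) ≤ (q : ℝ) ^ e := by
    have ha : ((a : ℕ) : ℝ) ≤ q := by exact_mod_cast a.2.le
    calc ((a : ℕ) : ℝ) * (q : ℝ) ^ (j : ℕ) ≤ q * (q : ℝ) ^ (j : ℕ) := by gcongr
      _ = (q : ℝ) ^ ((j : ℕ) + 1) := by ring
      _ ≤ (q : ℝ) ^ e := pow_le_pow_right₀ hq' j.2
  have hx : |eps e p q * ((a : ℕ) : ℝ) * (q : ℝ) ^ (j : ℕ)| ≤ 1 / 200 := by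
    rw [abs_of_nonneg (by positivity), mul_assoc]
    calc eps e p q * (((a : ℕ) : ℝ) * (q : ℝ) ^ (j : ℕ)) ≤ eps e p q * (q : ℝ) ^ e := by gcongr
      _ ≤ 1 / 200 := h3
  unfold xpos
  calc |cc κ - lam κ * (eps e p q * ((a : ℕ) : ℝ) * (q : ℝ) ^ (j : ℕ)) + sg b * (eps e p q / 8)|
      ≤ |cc κ - lam κ * (eps e p q * ((a : ℕ) : ℝ) * (q : ℝ) ^ (j : ℕ))| +
        |sg b * (eps e p q / 8)| := abs_add_le _ _
    _ ≤ (|cc κ| + |lam κ * (eps e p q * ((a : ℕ) : ℝ) * (q : ℝ) ^ (j : ℕ))|) +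
        |sg b * (eps e p q / 8)| := by gcongr; exact abs_sub _ _
    _ ≤ (3 + 3 / 2 * (1 / 200)) + 1 * (1 / 1600) := by
        rw [abs_mul (lam κ), abs_mul (sg b), hsg, abs_of_pos (by positivity : 0 < eps e p q / 8)]
        have h6 : |lam κ| * |eps e p q * ((a : ℕ) : ℝ) * (q : ℝ) ^ (j : ℕ)| ≤
            3 / 2 * (1 / 200) := mul_le_mul hlam hx (abs_nonneg _) (by norm_num)
        linarith
    _ ≤ 4 := by norm_num

end H260R3
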