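import Pool.Agent.H260R3.MB

namespace H260R3
open scoped BigOperators

private theorem mc_prod {a b x y : ℝ} (h1 : |a| ≤ x) (h2 : |b| ≤ y) : |a * b| ≤ x * y := by
  rw [abs_mul]
  exact mul_le_mul h1 h2 (abs_nonneg _) ((abs_nonneg _).trans h1)

private theorem mc_AB {ν b1 b2 : ℝ} (h1 : |b1| ≤ ν) (h2 : |b2| ≤ ν) :
    |(b2 - 3 * b1) / 6| ≤ 2 / 3 * ν ∧ |(9 * b1 - b2) / 6| ≤ 5 / 3 * ν := by
  rw [abs_le] at h1 h2
  constructor <;> rw [abs_le] <;> constructor <;> linarith [h1.1, h1.2, h2.1, h2.2]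

/-- block estimate -/
private theorem mc_block {ν y b1 b2 r : ℝ} (hν0 : 0 ≤ ν) (hν : ν ≤ 1 / 200) (hy0 : 0 ≤ y)
    (hy : y ≤ ν) (h1 : |b1| ≤ ν) (h2 : |b2| ≤ ν) (hr0 : 0 ≤ r) (hr : r ≤ ν ^ 2 / 64) :
    (|(1 / 3 + (b2 - 3 * b1) / 6) * ((0 - 3 / 4 * y) ^ 2 - r) +
        (-4 / 3 + (9 * b1 - b2) / 6) * (0 - 3 / 4 * y) - y| ≤ 10 * ν ^ 2) ∧
    (|(1 / 3 + (b2 - 3 * b1) / 6) * ((1 - 3 / 2 * y) ^ 2 - r) +
        (-4 / 3 + (9 * b1 - b2) / 6) * (1 - 3 / 2 * y) - (-1 + y + b1)| ≤ 10 * ν ^ 2) ∧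
    (|(1 / 3 + (b2 - 3 * b1) / 6) * ((3 - -3 / 2 * y) ^ 2 - r) +
        (-4 / 3 + (9 * b1 - b2) / 6) * (3 - -3 / 2 * y) - (-1 + y + b2)| ≤ 10 * ν ^ 2) := by
  obtain ⟨hA, hB⟩ := mc_AB h1 h2
  set A : ℝ := (b2 - 3 * b1) / 6 with hAd
  set B : ℝ := (9 * b1 - b2) / 6 with hBd
  have hya : |y| ≤ ν := by rw [abs_of_nonneg hy0]; exact hy
  have hra : |r| ≤ ν ^ 2 / 64 := by rw [abs_of_nonneg hr0]; exact hr
  have e1 : |A * y| ≤ 2 / 3 * ν * ν := mc_prod hA hya
  have e2 : |B * y| ≤ 5 / 3 * ν * ν := mc_prod hB hya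
  have e3 : |y * y| ≤ ν * ν := mc_prod hya hya
  have hν2 : ν * ν ≤ 1 / 200 * ν := mul_le_mul_of_nonneg_right hν hν0
  have e4 : |A * y * y| ≤ 2 / 3 * ν * ν * ν := mc_prod e1 hya
  have e4' : 2 / 3 * ν * ν * ν ≤ 1 / 300 * (ν * ν) := by
    have := mul_nonneg hν0 hν0
    nlinarith
  have e5 : |A * r| ≤ 2 / 3 * ν * (ν ^ 2 / 64) := mc_prod hA hra
  have e5' : 2 / 3 * ν * (ν ^ 2 / 64) ≤ 1 / 300 * (ν * ν) := by
    have := mul_nonneg hν0 hν0
    nlinarith
  have hνν : ν ^ 2 = ν * ν := by ring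
  have hνν0 : 0 ≤ ν * ν := mul_nonneg hν0 hν0
  rw [abs_le] at e1 e2 e3 e4 e5 hra
  have hsum1 : A + B = b1 := by rw [hAd, hBd]; ring
  have hsum2 : 9 * A + 3 * B = b2 := by rw [hAd, hBd]; ring
  rw [hνν] at hra ⊢
  refine ⟨?_, ?_, ?_⟩
  · have : (1 / 3 + A) * ((0 - 3 / 4 * y) ^ 2 - r) + (-4 / 3 + B) * (0 - 3 / 4 * y) - y =
        3 / 16 * (y * y) + 9 / 16 * (A * y * y) - 3 / 4 * (B * y) - 1 / 3 * r - A * r := by ring
    rw [this, abs_le]
    constructor <;> linarith [e1.1, e1.2, e2.1, e2.2, e3.1, e3.2, e4.1, e4.2, e5.1, e5.2, hra.1, hra.2]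
  · have : (1 / 3 + A) * ((1 - 3 / 2 * y) ^ 2 - r) + (-4 / 3 + B) * (1 - 3 / 2 * y) - (-1 + y + b1) =
        3 / 4 * (y * y) - 3 * (A * y) + 9 / 4 * (A * y * y) - 3 / 2 * (B * y) - 1 / 3 * r - A * r := by
      rw [← hsum1]; ring
    rw [this, abs_le]
    constructor <;> linarith [e1.1, e1.2, e2.1, e2.2, e3.1, e3.2, e4.1, e4.2, e5.1, e5.2, hra.1, hra.2]
  · have : (1 / 3 + A) * ((3 - -3 / 2 * y) ^ 2 - r) + (-4 / 3 + B) * (3 - -3 / 2 * y) - (-1 + y + b2) =
        3 / 4 * (y * y) + 9 * (A * y) + 9 / 4 * (A * y * y) + 3 / 2 * (B * y) - 1 / 3 * r - A * r := by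
      rw [← hsum2]; ring
    rw [this, abs_le]
    constructor <;> linarith [e1.1, e1.2, e2.1, e2.2, e3.1, e3.2, e4.1, e4.2, e5.1, e5.2, hra.1, hra.2]

/-- MC (the heart): reading a digit -/
theorem own_sign (e p q : ℕ) [NeZero e] (he : 2 ≤ e) (τ : Dig e p → Fin (q ^ e)) (U : Fin e → ℝ)
    (k : Dig e p) (a : Fin e → Fin q) :
    0 < gplus e p q (digR τ) U
        (fun j => U j + eta e * (xpos e p q j (kap k j) (a j) + sg false * (eps e p q / 8)))
        (fun j => U j + eta e * (xpos e p q j (kap k j) (a j) + sg true * (eps e p q / 8))) +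
      ∑ z, (1 - sg (del k z)) * (eta e ^ 2 * zt e p q (digR τ) z) ↔
    τ k ≤ finFunctionFinEquiv a := by
  classical
  have hq : 0 < q := (a 0).pos
  have hqR : (1 : ℝ) ≤ q := by exact_mod_cast hq
  set R : ℝ := (q : ℝ) ^ e with hR
  have hR1 : 1 ≤ R := one_le_pow₀ hqR
  have heR : (2 : ℝ) ≤ e := by exact_mod_cast he
  have hp0 : (0 : ℝ) ≤ p := Nat.cast_nonneg p
  set E : ℝ := eps e p q with hE
  have hEd : E * (100 * (e + p) * R ^ 2) = 1 := by
    rw [hE]
    unfold eps
    rw [← hR]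
    field_simp
  have hE0 : 0 < E := by
    rw [hE]; unfold eps; positivity
  set ν : ℝ := E * R with hν
  have hν0 : 0 ≤ ν := by positivity
  -- 10 e ν² ≤ E / 10
  have hνE : 10 * e * ν ^ 2 ≤ E / 10 := by
    have h1 : ν ^ 2 * (100 * (e + p)) = E := by
      rw [hν]
      calc (E * R) ^ 2 * (100 * (e + p)) = E * (E * (100 * (e + p) * R ^ 2)) := by ring
        _ = E := by rw [hEd, mul_one]
    have h2 : 0 ≤ ν ^ 2 * p := by positivity
    nlinarith
  have hν200 : ν ≤ 1 / 200 := by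
    have h1 : ν * (100 * (e + p) * R) = 1 := by rw [← hEd, hν]; ring
    have h2 : 200 ≤ 100 * ((e : ℝ) + p) * R := by nlinarith
    have h3 : ν * 200 ≤ ν * (100 * (e + p) * R) := mul_le_mul_of_nonneg_left h2 hν0
    linarith
  have hEν : E ≤ ν := by rw [hν]; exact le_mul_of_one_le_right hE0.le hR1
  have hη : 0 < eta e := by unfold eta; positivity
  -- digits
  have hdig : ∀ l : Dig e p, |(-E) * (digR τ l - 1 / 2)| ≤ ν := by
    intro l
    have h0 : (0 : ℝ) ≤ digR τ l := Nat.cast_nonneg _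
    have h1 : digR τ l ≤ R := by
      have := (τ l).isLt
      rw [hR]
      unfold digR
      exact_mod_cast this.le
    rw [abs_mul, abs_neg, abs_of_pos hE0, hν]
    refine mul_le_mul_of_nonneg_left ?_ hE0.le
    rw [abs_le]
    constructor <;> linarith
  -- the positions
  set y : Fin e → ℝ := fun j => E * ((a j : ℕ) : ℝ) * (q : ℝ) ^ (j : ℕ) with hy
  have hy0 : ∀ j, 0 ≤ y j := fun j => by rw [hy]; positivity
  have hyν : ∀ j, y j ≤ ν := by
    intro j
    have h1 : ((a j : ℕ) : ℝ) ≤ q := by exact_mod_cast (a j).isLt.le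
    have h2 : (q : ℝ) ^ ((j : ℕ) + 1) ≤ R := pow_le_pow_right₀ hqR j.isLt
    calc y j = E * (((a j : ℕ) : ℝ) * (q : ℝ) ^ (j : ℕ)) := by rw [hy]; ring
      _ ≤ E * (q * (q : ℝ) ^ (j : ℕ)) := by gcongr
      _ = E * (q : ℝ) ^ ((j : ℕ) + 1) := by rw [pow_succ]; ring
      _ ≤ ν := by rw [hν]; gcongr
  set r : ℝ := (E / 8) ^ 2 with hr
  have hr0 : 0 ≤ r := by positivity
  have hrν : r ≤ ν ^ 2 / 64 := by
    have : E ^ 2 ≤ ν ^ 2 := pow_le_pow_left₀ hE0.le hEν 2
    rw [hr]; nlinarith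
  set N : ℝ := ∑ j, ((a j : ℕ) : ℝ) * (q : ℝ) ^ (j : ℕ) with hN
  have hyN : ∑ j, y j = E * N := by
    rw [hN, Finset.mul_sum]
    refine Finset.sum_congr rfl fun j _ => ?_
    rw [hy]; ring
  have hNnat : N = (((finFunctionFinEquiv a : Fin (q ^ e)) : ℕ) : ℝ) := by
    rw [hN, finFunctionFinEquiv_apply]
    push_cast
    rfl
  -- the blocks
  set T : Fin e → ℝ := fun j => al e p q (digR τ) j * (xpos e p q j (kap k j) (a j) ^ 2 - r) +
    be e p q (digR τ) j * xpos e p q j (kap k j) (a j) with hT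
  have hgp : gplus e p q (digR τ) U
        (fun j => U j + eta e * (xpos e p q j (kap k j) (a j) + sg false * (E / 8)))
        (fun j => U j + eta e * (xpos e p q j (kap k j) (a j) + sg true * (E / 8))) +
      ∑ z, (1 - sg (del k z)) * (eta e ^ 2 * zt e p q (digR τ) z) =
      eta e ^ 2 * (1 + ∑ j, T j + ∑ z, (1 - sg (del k z)) * zt e p q (digR τ) z) := by
    unfold gplus
    rw [mul_add, mul_add, mul_one, Finset.mul_sum, Finset.mul_sum]
    congr 1
    · congr 1
      refine Finset.sum_congr rfl fun j _ => ?_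
      rw [hT, hr]
      simp only [sg, Bool.false_eq_true, if_false, if_true]
      ring
    · refine Finset.sum_congr rfl fun z _ => ?_
      ring
  have hpos : 0 < gplus e p q (digR τ) U
        (fun j => U j + eta e * (xpos e p q j (kap k j) (a j) + sg false * (E / 8)))
        (fun j => U j + eta e * (xpos e p q j (kap k j) (a j) + sg true * (E / 8))) +
      ∑ z, (1 - sg (del k z)) * (eta e ^ 2 * zt e p q (digR τ) z) ↔
      0 < 1 + ∑ j, T j + ∑ z, (1 - sg (del k z)) * zt e p q (digR τ) z := by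
    rw [hgp]
    exact mul_pos_iff_of_pos_left (by positivity)
  rw [hpos]
  set mn : Fin e → ℝ := fun j => if kap k j = 0 then y j else if kap k j = 1 then
    -1 + y j + b1 e p q (digR τ) j else -1 + y j + b2 e p q (digR τ) j with hmn
  have hblock : ∀ j, |T j - mn j| ≤ 10 * ν ^ 2 := by
    intro j
    have hb := mc_block hν0 hν200 (hy0 j) (hyν j)
      (show |b1 e p q (digR τ) j| ≤ ν from hdig _) (show |b2 e p q (digR τ) j| ≤ ν from hdig _) hr0 hrν
    have hcase : kap k j = 0 ∨ kap k j = 1 ∨ kap k j = 2 := by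
      have : ∀ x : Fin 3, x = 0 ∨ x = 1 ∨ x = 2 := by decide
      exact this _
    rcases hcase with h | h | h
    · have e1 : mn j = y j := by rw [hmn]; simp only [h, if_true]
      have e2 : T j = (1 / 3 + (b2 e p q (digR τ) j - 3 * b1 e p q (digR τ) j) / 6) *
          ((0 - 3 / 4 * y j) ^ 2 - r) +
          (-4 / 3 + (9 * b1 e p q (digR τ) j - b2 e p q (digR τ) j) / 6) * (0 - 3 / 4 * y j) := by
        rw [hT, hy]
        simp only [h]
        unfold al be xpos cc lam
        simp only [Matrix.cons_val_zero]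
        rw [← hE]
      rw [e1, e2]
      exact hb.1
    · have e1 : mn j = -1 + y j + b1 e p q (digR τ) j := by
        rw [hmn]; simp only [h]
        rw [if_neg (by decide), if_pos trivial]
      have e2 : T j = (1 / 3 + (b2 e p q (digR τ) j - 3 * b1 e p q (digR τ) j) / 6) *
          ((1 - 3 / 2 * y j) ^ 2 - r) +
          (-4 / 3 + (9 * b1 e p q (digR τ) j - b2 e p q (digR τ) j) / 6) * (1 - 3 / 2 * y j) := by
        rw [hT, hy]
        simp only [h]
        unfold al be xpos cc lam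
        simp only [Matrix.cons_val_one, Matrix.cons_val_zero]
        rw [← hE]
      rw [e1, e2]
      exact hb.2.1
    · have e1 : mn j = -1 + y j + b2 e p q (digR τ) j := by
        rw [hmn]; simp only [h]
        rw [if_neg (by decide), if_neg (by decide)]
      have e2 : T j = (1 / 3 + (b2 e p q (digR τ) j - 3 * b1 e p q (digR τ) j) / 6) *
          ((3 - -3 / 2 * y j) ^ 2 - r) +
          (-4 / 3 + (9 * b1 e p q (digR τ) j - b2 e p q (digR τ) j) / 6) * (3 - -3 / 2 * y j) := by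
        rw [hT, hy]
        simp only [h]
        unfold al be xpos cc lam
        simp only [Matrix.cons_val]
        rw [← hE]
      rw [e1, e2]
      exact hb.2.2
  have herr : |∑ j, T j - ∑ j, mn j| ≤ E / 10 := by
    rw [← Finset.sum_sub_distrib]
    refine (Finset.abs_sum_le_sum_abs _ _).trans ((Finset.sum_le_sum fun j _ => hblock j).trans ?_)
    rw [Finset.sum_const, Finset.card_univ, Fintype.card_fin, nsmul_eq_mul]
    linarith
  -- the main terms
  have hmain : 1 + ∑ j, mn j + ∑ z, (1 - sg (del k z)) * zt e p q (digR τ) z =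
      E * (N - digR τ k + 1 / 2) := by
    rcases k with ⟨j0, b⟩ | z
    · have h1 : ∑ z, (1 - sg (del (Sum.inl (j0, b) : Dig e p) z)) * zt e p q (digR τ) z = 0 := by
        refine Finset.sum_eq_zero fun z _ => ?_
        simp [del, sg]
      have h2 : ∀ j, mn j = y j + (if j = j0 then (-1 + (-E) * (digR τ (Sum.inl (j0, b)) - 1 / 2)) else 0) := by
        intro j
        rw [hmn]
        simp only [kap]
        by_cases hj : j = j0
        · subst hj
          cases b
          · simp only [if_true, Bool.false_eq_true, if_false]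
            rw [if_neg (by decide)]
            unfold b1
            rw [← hE]
            ring
          · simp only [if_true]
            rw [if_neg (by decide), if_neg (by decide)]
            unfold b2
            rw [← hE]
            ring
        · simp only [if_neg hj, if_true, add_zero]
      rw [h1, Finset.sum_congr rfl fun j _ => h2 j, Finset.sum_add_distrib, hyN,
        Finset.sum_ite_eq' Finset.univ j0, if_pos (Finset.mem_univ _)]
      ring
    · have h1 : ∑ z', (1 - sg (del (Sum.inr z : Dig e p) z')) * zt e p q (digR τ) z' =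
          2 * zt e p q (digR τ) z := by
        rw [Finset.sum_eq_single z]
        · simp only [del, if_true, sg, Bool.false_eq_true, if_false]
          ring
        · intro z' _ hz'
          simp only [del, if_neg hz', sg, if_true]
          ring
        · intro h; exact absurd (Finset.mem_univ _) h
      have h2 : ∀ j, mn j = y j + (if j = 0 then (-1 + (-E) * (digR τ (Sum.inl (0, false)) - 1 / 2)) else 0) := by
        intro j
        rw [hmn]
        simp only [kap]
        by_cases hj : j = 0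
        · subst hj
          simp only [if_true]
          rw [if_neg (by decide)]
          unfold b1
          rw [← hE]
          ring
        · simp only [if_neg hj, if_true, add_zero]
      rw [h1, Finset.sum_congr rfl fun j _ => h2 j, Finset.sum_add_distrib, hyN,
        Finset.sum_ite_eq' Finset.univ (0 : Fin e), if_pos (Finset.mem_univ _)]
      unfold zt
      rw [← hE]
      ring
  rw [abs_le] at herr
  have hdk : digR τ k = ((τ k : ℕ) : ℝ) := rfl
  rw [Fin.le_def]
  constructor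
  · intro h
    by_contra hcon
    rw [not_le] at hcon
    have h1 : N + 1 ≤ digR τ k := by
      rw [hNnat, hdk]; exact_mod_cast hcon
    have h2 : E * (N - digR τ k + 1 / 2) ≤ E * (-1 / 2) :=
      mul_le_mul_of_nonneg_left (by linarith) hE0.le
    linarith [herr.1, herr.2]
  · intro h
    have h1 : digR τ k ≤ N := by
      rw [hNnat, hdk]; exact_mod_cast h
    have h2 : E * (1 / 2) ≤ E * (N - digR τ k + 1 / 2) :=
      mul_le_mul_of_nonneg_left (by linarith) hE0.le
    linarith [herr.1, herr.2]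

end H260R3
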