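import Pool.Agent.H260R3.MB

namespace H260R3
open scoped BigOperators

private theorem MD_same (a b x x' η : ℝ) (ha : 1 / 4 ≤ a) (ha' : a ≤ 1 / 2) (hb : -2 ≤ b)
    (hb' : b ≤ -1) (hx : |x| ≤ 4) (hx' : |x'| ≤ 4) :
    -(16 * η ^ 2) ≤ a * (η * x) * (η * x') + b * η / 2 * (η * (x + x')) := by
  have h1 : a * (x * x') + b / 2 * (x + x') ≥ -16 := by
    have hxx : |x * x'| ≤ 16 := by
      rw [abs_mul]
      have := abs_nonneg x
      have := abs_nonneg x'
      nlinarith
    have hs : |x + x'| ≤ 8 := (abs_add_le x x').trans (by linarith)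
    have e1 : |a * (x * x')| ≤ 8 := by
      rw [abs_mul, abs_of_nonneg (by linarith : 0 ≤ a)]
      have := abs_nonneg (x * x')
      nlinarith
    have e2 : |b / 2 * (x + x')| ≤ 8 := by
      rw [abs_mul]
      have h3 : |b / 2| ≤ 1 := by rw [abs_le]; constructor <;> linarith
      have := abs_nonneg (x + x')
      have := abs_nonneg (b / 2)
      nlinarith
    have := (abs_le.1 e1).1
    have := (abs_le.1 e2).1
    linarith
  have h2 : a * (η * x) * (η * x') + b * η / 2 * (η * (x + x')) =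
      η ^ 2 * (a * (x * x') + b / 2 * (x + x')) := by ring
  rw [h2]
  nlinarith [sq_nonneg η]

private theorem MD_diff (a b D x x' η : ℝ) (ha : 1 / 4 ≤ a) (ha' : a ≤ 1 / 2) (hb : -2 ≤ b)
    (hb' : b ≤ -1) (hx : |x| ≤ 4) (hx' : |x'| ≤ 4) (hη : 0 < η) (hη' : η ≤ 1 / 200)
    (hD : 1 ≤ |D|) :
    1 / 5 ≤ a * (D + η * x) * (D + η * x') + b * η / 2 * (2 * D + η * (x + x')) := by
  have hxx : |x * x'| ≤ 16 := by
    rw [abs_mul]
    have := abs_nonneg x
    have := abs_nonneg x'
    nlinarith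
  have hs : |x + x'| ≤ 8 := (abs_add_le x x').trans (by linarith)
  have hD2 : D ^ 2 = |D| ^ 2 := (sq_abs D).symm
  have e0 : (D + η * x) * (D + η * x') = D ^ 2 + η * D * (x + x') + η ^ 2 * (x * x') := by ring
  have e1 : |η * D * (x + x')| ≤ |D| / 25 := by
    rw [abs_mul, abs_mul, abs_of_pos hη]
    have h1 := abs_nonneg (x + x')
    have h2 : η * |D| ≤ 1 / 200 * |D| := mul_le_mul_of_nonneg_right hη' (by linarith)
    have h3 : η * |D| * |x + x'| ≤ 1 / 200 * |D| * 8 :=
      mul_le_mul h2 hs h1 (by linarith)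
    linarith
  have hη2 : η ^ 2 ≤ 1 / 40000 := by nlinarith
  have e2 : |η ^ 2 * (x * x')| ≤ 1 / 2500 := by
    rw [abs_mul, abs_of_nonneg (sq_nonneg η)]
    have h3 : η ^ 2 * |x * x'| ≤ 1 / 40000 * 16 :=
      mul_le_mul hη2 hxx (abs_nonneg _) (by norm_num)
    linarith
  have e3 : (D + η * x) * (D + η * x') ≥ 19 / 20 * |D| ^ 2 := by
    rw [e0, hD2]
    have := (abs_le.1 e1).1
    have := (abs_le.1 e2).1
    nlinarith
  have e4 : a * ((D + η * x) * (D + η * x')) ≥ 1 / 4 * (19 / 20 * |D| ^ 2) := by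
    apply mul_le_mul ha e3 (by positivity) (by linarith)
  have e5 : |b * η / 2 * (2 * D)| ≤ 1 / 100 * |D| := by
    have : b * η / 2 * (2 * D) = b * (η * D) := by ring
    rw [this, abs_mul, abs_mul, abs_of_pos hη]
    have h3 : |b| ≤ 2 := by rw [abs_le]; constructor <;> linarith
    have h2 : η * |D| ≤ 1 / 200 * |D| := mul_le_mul_of_nonneg_right hη' (by linarith)
    have h4 : |b| * (η * |D|) ≤ 2 * (1 / 200 * |D|) :=
      mul_le_mul h3 h2 (by positivity) (by norm_num)
    linarith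
  have e6 : |b * η / 2 * (η * (x + x'))| ≤ 1 / 5000 := by
    have : b * η / 2 * (η * (x + x')) = (b / 2) * (η ^ 2 * (x + x')) := by ring
    rw [this, abs_mul, abs_mul, abs_of_nonneg (sq_nonneg η)]
    have h3 : |b / 2| ≤ 1 := by rw [abs_le]; constructor <;> linarith
    have h2 : η ^ 2 * |x + x'| ≤ 1 / 40000 * 8 :=
      mul_le_mul hη2 hs (abs_nonneg _) (by norm_num)
    have h4 : |b / 2| * (η ^ 2 * |x + x'|) ≤ 1 * (1 / 40000 * 8) :=
      mul_le_mul h3 h2 (by positivity) (by norm_num)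
    linarith
  have e7 := (abs_le.1 e5).1
  have e8 := (abs_le.1 e6).1
  have e9 : a * (D + η * x) * (D + η * x') + b * η / 2 * (2 * D + η * (x + x')) =
      a * ((D + η * x) * (D + η * x')) + b * η / 2 * (2 * D) + b * η / 2 * (η * (x + x')) := by
    ring
  rw [e9]
  nlinarith

/-- MD -/
theorem cross_pos (e p q : ℕ) [NeZero e] (he : 2 ≤ e) (τ : Dig e p → Fin (q ^ e)) {A : ℕ}
    (u u' : Fin e → Fin A) (hu : u ≠ u') (x x' : Fin e → ℝ) (hx : ∀ j, |x j| ≤ 4)
    (hx' : ∀ j, |x' j| ≤ 4) (δ : Fin p → ℝ) (hδ : ∀ z, |δ z| ≤ 1) :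
    0 < gplus e p q (digR τ) (addR u') (fun j => addR u j + eta e * x j)
        (fun j => addR u j + eta e * x' j) +
      ∑ z, (1 - δ z) * (eta e ^ 2 * zt e p q (digR τ) z) := by
  have he2 : (2 : ℝ) ≤ (e : ℝ) := by exact_mod_cast he
  have hη : 0 < eta e := by unfold eta; positivity
  have hηe : (e : ℝ) * eta e = 1 / 100 := by unfold eta; field_simp
  have hη' : eta e ≤ 1 / 200 := by nlinarith
  -- zeta part
  have hz : ∑ z, (1 - δ z) * (eta e ^ 2 * zt e p q (digR τ) z) =
      eta e ^ 2 * ∑ z, (1 - δ z) * zt e p q (digR τ) z := by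
    rw [Finset.mul_sum]
    exact Finset.sum_congr rfl fun z _ => by ring
  have hzb := (abs_le.1 (zt_bound e p q he τ δ hδ)).1
  -- the terms
  set T : Fin e → ℝ := fun j =>
    al e p q (digR τ) j * (addR u j + eta e * x j - addR u' j) *
      (addR u j + eta e * x' j - addR u' j) +
    be e p q (digR τ) j * eta e / 2 *
      (addR u j + eta e * x j + (addR u j + eta e * x' j) - 2 * addR u' j) with hT
  have hg : gplus e p q (digR τ) (addR u') (fun j => addR u j + eta e * x j)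
      (fun j => addR u j + eta e * x' j) = eta e ^ 2 + ∑ j, T j := rfl
  have hne : ∀ j, u j ≠ u' j → 1 / 5 ≤ T j := by
    intro j hj
    obtain ⟨c1, c2, c3, c4⟩ := coef_bounds e p q he τ j
    have hD : 1 ≤ |addR u j - addR u' j| := by
      have h1 : addR u j - addR u' j = (((u j : ℕ) : ℤ) - ((u' j : ℕ) : ℤ) : ℤ) := by
        unfold addR; push_cast; ring
      rw [h1, ← Int.cast_abs]
      have h2 : (1 : ℤ) ≤ |((u j : ℕ) : ℤ) - ((u' j : ℕ) : ℤ)| := by
        apply Int.one_le_abs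
        intro h
        apply hj
        apply Fin.ext
        omega
      exact_mod_cast h2
    have := MD_diff (al e p q (digR τ) j) (be e p q (digR τ) j) (addR u j - addR u' j) (x j)
      (x' j) (eta e) c1 c2 c3 c4 (hx j) (hx' j) hη hη' hD
    refine this.trans (le_of_eq ?_)
    simp only [hT]
    ring
  have heq : ∀ j, u j = u' j → -(16 * eta e ^ 2) ≤ T j := by
    intro j hj
    obtain ⟨c1, c2, c3, c4⟩ := coef_bounds e p q he τ j
    have := MD_same (al e p q (digR τ) j) (be e p q (digR τ) j) (x j)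
      (x' j) (eta e) c1 c2 c3 c4 (hx j) (hx' j)
    refine this.trans (le_of_eq ?_)
    have h1 : addR u j = addR u' j := by unfold addR; rw [hj]
    simp only [hT, h1]
    ring
  have hall : ∀ j, 0 ≤ T j + 16 * eta e ^ 2 := by
    intro j
    by_cases hj : u j = u' j
    · linarith [heq j hj]
    · have := hne j hj
      positivity
  obtain ⟨j0, hj0⟩ : ∃ j, u j ≠ u' j := by
    by_contra h
    push Not at h
    exact hu (funext h)
  have hsum : T j0 + 16 * eta e ^ 2 ≤ ∑ j, (T j + 16 * eta e ^ 2) :=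
    Finset.single_le_sum (f := fun j => T j + 16 * eta e ^ 2) (fun j _ => hall j)
      (Finset.mem_univ j0)
  rw [Finset.sum_add_distrib] at hsum
  simp only [Finset.sum_const, Finset.card_univ, Fintype.card_fin, nsmul_eq_mul] at hsum
  have h5 := hne j0 hj0
  have h6 : (e : ℝ) * (16 * eta e ^ 2) = 16 / 100 * eta e := by
    have : (e : ℝ) * (16 * eta e ^ 2) = 16 * (e * eta e) * eta e := by ring
    rw [this, hηe]
    ring
  rw [hg, hz]
  have h7 : -(eta e ^ 2 * (1 / 100)) ≤ eta e ^ 2 * ∑ z, (1 - δ z) * zt e p q (digR τ) z := by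
    nlinarith [sq_nonneg (eta e)]
  nlinarith [sq_nonneg (eta e)]

end H260R3
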