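import Pool.Agent.H260R3.MB

namespace H260R3
open scoped BigOperators

private theorem me_eta (e : ℕ) (he : 2 ≤ e) : 0 < eta e ∧ eta e ≤ 1 / 200 ∧ (e : ℝ) * eta e = 1 / 100 := by
  have her : (2 : ℝ) ≤ e := by exact_mod_cast he
  refine ⟨by unfold eta; positivity, ?_, ?_⟩
  · unfold eta
    rw [div_le_div_iff₀ (by positivity) (by norm_num)]
    linarith
  · unfold eta
    field_simp

private theorem me_zeta (e p q : ℕ) [NeZero e] (he : 2 ≤ e) (τ : Dig e p → Fin (q ^ e))
    (δ : Fin p → ℝ) (hδ : ∀ z, |δ z| ≤ 1) :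
    |∑ z, (1 - δ z) * (eta e ^ 2 * zt e p q (digR τ) z)| ≤ eta e ^ 2 / 100 := by
  have h1 : ∑ z, (1 - δ z) * (eta e ^ 2 * zt e p q (digR τ) z)
      = eta e ^ 2 * ∑ z, (1 - δ z) * zt e p q (digR τ) z := by
    rw [Finset.mul_sum]
    apply Finset.sum_congr rfl
    intro z _
    ring
  rw [h1, abs_mul, abs_of_nonneg (by positivity : (0 : ℝ) ≤ eta e ^ 2)]
  have := mul_le_mul_of_nonneg_left (zt_bound e p q he τ δ hδ)
    (by positivity : (0 : ℝ) ≤ eta e ^ 2)
  linarith

/-- ME -/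
theorem far_pos (e p q : ℕ) [NeZero e] (he : 2 ≤ e) (τ : Dig e p → Fin (q ^ e)) {A : ℕ}
    (u : Fin e → Fin A) (s : Fin e → ℝ)
    (hs : ∀ j, s j = A + 10 ∨ ∃ (v : Fin A) (x : ℝ), |x| ≤ 4 ∧ s j = ((v : ℕ) : ℝ) + 1 + eta e * x)
    (hl : ∃ l, s l = A + 10) (δ : Fin p → ℝ) (hδ : ∀ z, |δ z| ≤ 1) :
    0 < gplus e p q (digR τ) (addR u) s s +
      ∑ z, (1 - δ z) * (eta e ^ 2 * zt e p q (digR τ) z) := by
  obtain ⟨l, hl⟩ := hl
  obtain ⟨h1, h2, h3⟩ := me_eta e he
  have hz := (abs_le.1 (me_zeta e p q he τ δ hδ)).1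
  have hsum : ∑ j : Fin e, (-(4 * eta e ^ 2) + (if j = l then 24 + 4 * eta e ^ 2 else 0)) ≤
      ∑ j, (al e p q (digR τ) j * (s j - addR u j) * (s j - addR u j) +
      be e p q (digR τ) j * eta e / 2 * (s j + s j - 2 * addR u j)) := by
    apply Finset.sum_le_sum
    intro j _
    obtain ⟨c1, c2, c3, c4⟩ := coef_bounds e p q he τ j
    set a := al e p q (digR τ) j
    set b := be e p q (digR τ) j
    by_cases hj : j = l
    · subst hj
      rw [if_pos rfl, hl]
      have hu : ((u j : ℕ) : ℝ) + 1 ≤ A := by exact_mod_cast (u j).2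
      have hD : 10 ≤ (A : ℝ) + 10 - addR u j := by unfold addR; linarith
      set D := (A : ℝ) + 10 - addR u j
      have e1 : ((A : ℝ) + 10 + (A + 10) - 2 * addR u j) = 2 * D := by simp only [D]; ring
      rw [e1]
      have e2 : b * eta e / 2 * (2 * D) = -((-b) * eta e * D) := by ring
      rw [e2]
      have h4 : (-b) * eta e * D ≤ 2 * (1 / 200) * D := by
        apply mul_le_mul_of_nonneg_right _ (by linarith)
        exact mul_le_mul (by linarith) h2 h1.le (by norm_num)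
      have h5 : 1 / 4 * D * D ≤ a * D * D := by
        apply mul_le_mul_of_nonneg_right _ (by linarith)
        exact mul_le_mul_of_nonneg_right c1 (by linarith)
      nlinarith
    · rw [if_neg hj, add_zero]
      set D := s j - addR u j
      have e1 : s j + s j - 2 * addR u j = 2 * D := by simp only [D]; ring
      rw [e1]
      have h4 : 0 ≤ (a * D + b * eta e / 2) ^ 2 := sq_nonneg _
      have h5 : b ^ 2 ≤ 4 := by nlinarith
      have h6 : 0 < a := by linarith
      -- a * (a D^2 + b eta D + 4 eta^2) ≥ 0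
      have h7 : 0 ≤ a * (a * D * D + b * eta e / 2 * (2 * D) + 4 * eta e ^ 2) := by
        have h8 : a * (a * D * D + b * eta e / 2 * (2 * D) + 4 * eta e ^ 2)
            = (a * D + b * eta e / 2) ^ 2 + (4 * a - b ^ 2 / 4) * eta e ^ 2 := by ring
        rw [h8]
        have h9 : 0 ≤ (4 * a - b ^ 2 / 4) * eta e ^ 2 := by
          apply mul_nonneg _ (by positivity)
          linarith
        linarith
      have h10 := nonneg_of_mul_nonneg_right h7 h6
      linarith
  rw [Finset.sum_add_distrib, Finset.sum_const, Finset.card_univ, Fintype.card_fin,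
    Finset.sum_ite_eq', if_pos (Finset.mem_univ _), nsmul_eq_mul] at hsum
  unfold gplus
  have h6 : (e : ℝ) * -(4 * eta e ^ 2) = -(4 * eta e) * (1 / 100) := by
    rw [← h3]; ring
  rw [h6] at hsum
  have h7 : eta e ^ 2 ≤ 1 := by nlinarith
  nlinarith

/-- MF -/
theorem centre_neg (e p q : ℕ) [NeZero e] (he : 2 ≤ e) (τ : Dig e p → Fin (q ^ e))
    (U : Fin e → ℝ) (δ : Fin p → ℝ) (hδ : ∀ z, |δ z| ≤ 1) :
    gplus e p q (digR τ) U (fun j => U j + eta e * 2) (fun j => U j + eta e * 2) +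
      ∑ z, (1 - δ z) * (eta e ^ 2 * zt e p q (digR τ) z) < 0 := by
  obtain ⟨h1, h2, h3⟩ := me_eta e he
  have hz := (abs_le.1 (me_zeta e p q he τ δ hδ)).2
  have her : (2 : ℝ) ≤ e := by exact_mod_cast he
  have hpr : (0 : ℝ) ≤ p := by positivity
  have hb : ∀ k : Dig e p, |(-eps e p q * (digR τ k - 1 / 2))| ≤ 1 / 200 := by
    intro k
    have hR1 : (1 : ℕ) ≤ q ^ e := by have := (τ k).2; omega
    have hR : (1 : ℝ) ≤ (q : ℝ) ^ e := by exact_mod_cast hR1
    have hk : (((τ k : ℕ) : ℝ)) + 1 ≤ (q : ℝ) ^ e := by exact_mod_cast (τ k).2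
    have hk0 : (0 : ℝ) ≤ (((τ k : ℕ) : ℝ)) := by positivity
    have heps0 : 0 < eps e p q := by unfold eps; positivity
    have hnu : eps e p q * (q : ℝ) ^ e ≤ 1 / 200 := by
      unfold eps
      rw [div_mul_eq_mul_div, one_mul, div_le_div_iff₀ (by positivity) (by norm_num)]
      nlinarith [mul_nonneg hpr (by positivity : (0 : ℝ) ≤ ((q : ℝ) ^ e) ^ 2),
        mul_le_mul_of_nonneg_right her (by positivity : (0 : ℝ) ≤ ((q : ℝ) ^ e) ^ 2)]
    rw [abs_mul, abs_neg, abs_of_pos heps0]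
    refine le_trans (mul_le_mul_of_nonneg_left ?_ heps0.le) hnu
    unfold digR
    rw [abs_le]
    constructor <;> linarith
  unfold gplus
  have hsum : ∑ j, (al e p q (digR τ) j * (U j + eta e * 2 - U j) * (U j + eta e * 2 - U j) +
      be e p q (digR τ) j * eta e / 2 * (U j + eta e * 2 + (U j + eta e * 2) - 2 * U j))
      ≤ ∑ _j : Fin e, (-(13 / 10) * eta e ^ 2) := by
    apply Finset.sum_le_sum
    intro j _
    have hb1 := (abs_le.1 (hb (Sum.inl (j, false)))).2
    have hb2 := (abs_le.1 (hb (Sum.inl (j, true)))).2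
    have e1 : al e p q (digR τ) j * (U j + eta e * 2 - U j) * (U j + eta e * 2 - U j) +
      be e p q (digR τ) j * eta e / 2 * (U j + eta e * 2 + (U j + eta e * 2) - 2 * U j)
      = (-(4 / 3) + b1 e p q (digR τ) j + b2 e p q (digR τ) j / 3) * eta e ^ 2 := by
      unfold al be
      ring
    rw [e1]
    apply mul_le_mul_of_nonneg_right _ (by positivity)
    unfold b1 b2
    linarith
  rw [Finset.sum_const, Finset.card_univ, Fintype.card_fin, nsmul_eq_mul] at hsum
  have h5 : (e : ℝ) * (-(13 / 10) * eta e ^ 2) ≤ 2 * (-(13 / 10) * eta e ^ 2) := by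
    nlinarith [sq_nonneg (eta e)]
  have h6 : 0 < eta e ^ 2 := by positivity
  linarith

end H260R3
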