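import Pool.Agent.H260R3.MB

namespace H260R3
open scoped BigOperators

private theorem mg_basic (e p q : ℕ) (he : 2 ≤ e) (j : Fin e) (a : Fin q) :
    0 < eta e ∧ eta e ≤ 1 / 200 ∧ 0 < eps e p q ∧ 1 ≤ (q : ℝ) ^ (j : ℕ) ∧
    0 ≤ eps e p q * ((a : ℕ) : ℝ) * (q : ℝ) ^ (j : ℕ) ∧
    eps e p q * ((a : ℕ) : ℝ) * (q : ℝ) ^ (j : ℕ) ≤ 1 / 200 ∧ eps e p q ≤ 1 / 200 := by
  have hq : 1 ≤ q := by have := a.2; omega
  have hqr : (1 : ℝ) ≤ q := by exact_mod_cast hq
  have her : (2 : ℝ) ≤ e := by exact_mod_cast he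
  have hpr : (0 : ℝ) ≤ p := by positivity
  have hR : (1 : ℝ) ≤ (q : ℝ) ^ e := one_le_pow₀ hqr
  have hqj : (1 : ℝ) ≤ (q : ℝ) ^ (j : ℕ) := one_le_pow₀ hqr
  have heta0 : 0 < eta e := by unfold eta; positivity
  have heta : eta e ≤ 1 / 200 := by
    unfold eta
    rw [div_le_div_iff₀ (by positivity) (by norm_num)]
    linarith
  have heps0 : 0 < eps e p q := by unfold eps; positivity
  have hnu : eps e p q * (q : ℝ) ^ e ≤ 1 / 200 := by
    unfold eps
    rw [div_mul_eq_mul_div, one_mul, div_le_div_iff₀ (by positivity) (by norm_num)]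
    nlinarith [mul_nonneg hpr (by positivity : (0 : ℝ) ≤ ((q : ℝ) ^ e) ^ 2),
      mul_le_mul_of_nonneg_right her (by positivity : (0 : ℝ) ≤ ((q : ℝ) ^ e) ^ 2)]
  have hb : ((a : ℕ) : ℝ) * (q : ℝ) ^ (j : ℕ) ≤ (q : ℝ) ^ e := by
    have h1 : ((a : ℕ) : ℝ) ≤ q := by exact_mod_cast a.2.le
    have h2 : ((a : ℕ) : ℝ) * (q : ℝ) ^ (j : ℕ) ≤ (q : ℝ) ^ ((j : ℕ) + 1) := by
      rw [pow_succ, mul_comm]
      exact mul_le_mul_of_nonneg_left h1 (by positivity)
    exact h2.trans (pow_le_pow_right₀ hqr j.2)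
  refine ⟨heta0, heta, heps0, hqj, by positivity, ?_, ?_⟩
  · calc eps e p q * ((a : ℕ) : ℝ) * (q : ℝ) ^ (j : ℕ)
        = eps e p q * (((a : ℕ) : ℝ) * (q : ℝ) ^ (j : ℕ)) := by ring
      _ ≤ eps e p q * (q : ℝ) ^ e := mul_le_mul_of_nonneg_left hb heps0.le
      _ ≤ _ := hnu
  · calc eps e p q = eps e p q * 1 := by ring
      _ ≤ eps e p q * (q : ℝ) ^ e := mul_le_mul_of_nonneg_left hR heps0.le
      _ ≤ _ := hnu

/-- centres -/
private noncomputable def mgc (e p q : ℕ) {A : ℕ} (j : Fin e) (u : Fin A) (κ : Fin 3)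
    (a : Fin q) : ℝ := ((u : ℕ) : ℝ) + 1 + eta e * xpos e p q j κ a

private theorem mg_xpos (e p q : ℕ) (he : 2 ≤ e) (j : Fin e) (κ : Fin 3) (a : Fin q) :
    -(1 / 10) ≤ xpos e p q j κ a ∧ xpos e p q j κ a ≤ 31 / 10 := by
  obtain ⟨h1, h2, h3, h4, h5, h6, h7⟩ := mg_basic e p q he j a
  unfold xpos
  fin_cases κ <;> simp [cc, lam] <;> constructor <;> nlinarith

private theorem mg_sep_x (e p q : ℕ) (he : 2 ≤ e) (j : Fin e) (κ κ' : Fin 3)
    (a a' : Fin q) (h : (κ, a) ≠ (κ', a')) :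
    3 / 4 * eps e p q ≤ |xpos e p q j κ a - xpos e p q j κ' a'| := by
  obtain ⟨h1, h2, h3, h4, h5, h6, h7⟩ := mg_basic e p q he j a
  obtain ⟨-, -, -, -, g5, g6, -⟩ := mg_basic e p q he j a'
  by_cases hκ : κ = κ'
  · subst hκ
    have ha : a ≠ a' := fun e => h (by rw [e])
    have ha2 : (1 : ℝ) ≤ |((a : ℕ) : ℝ) - ((a' : ℕ) : ℝ)| := by
      have h8 : ((a : ℕ) : ℤ) - ((a' : ℕ) : ℤ) ≠ 0 := by
        intro h9
        apply ha
        ext
        omega
      have h9 := Int.one_le_abs h8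
      have h10 : ((1 : ℤ) : ℝ) ≤ ((|((a : ℕ) : ℤ) - ((a' : ℕ) : ℤ)| : ℤ) : ℝ) := by exact_mod_cast h9
      simpa using h10
    have hlam : 3 / 4 ≤ |lam κ| := by
      fin_cases κ <;> simp [lam, abs_of_pos, abs_div] <;> norm_num
    have he1 : xpos e p q j κ a - xpos e p q j κ a'
        = -(lam κ * (eps e p q * (q : ℝ) ^ (j : ℕ)) * (((a : ℕ) : ℝ) - ((a' : ℕ) : ℝ))) := by
      unfold xpos; ring
    rw [he1, abs_neg, abs_mul, abs_mul, abs_of_pos (by positivity : 0 < eps e p q * (q : ℝ) ^ (j : ℕ))]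
    have h11 : eps e p q ≤ eps e p q * (q : ℝ) ^ (j : ℕ) := by nlinarith
    calc 3 / 4 * eps e p q ≤ |lam κ| * (eps e p q * (q : ℝ) ^ (j : ℕ)) :=
          mul_le_mul hlam h11 h3.le (abs_nonneg _)
      _ = |lam κ| * (eps e p q * (q : ℝ) ^ (j : ℕ)) * 1 := by ring
      _ ≤ _ := mul_le_mul_of_nonneg_left ha2 (by positivity)
  · have key : 1 / 2 ≤ |xpos e p q j κ a - xpos e p q j κ' a'| := by
      unfold xpos
      fin_cases κ <;> fin_cases κ' <;> simp [cc, lam] at hκ ⊢ <;>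
        first
        | (rw [le_abs]; left; nlinarith)
        | (rw [le_abs]; right; nlinarith)
    linarith

private theorem mg_sep_c (e p q : ℕ) (he : 2 ≤ e) {A : ℕ} (j : Fin e) (u u' : Fin A)
    (κ κ' : Fin 3) (a a' : Fin q) (h : (u, κ, a) ≠ (u', κ', a')) :
    eta e * (3 / 4 * eps e p q) ≤ |mgc e p q j u κ a - mgc e p q j u' κ' a'| := by
  obtain ⟨h1, h2, h3, h4, h5, h6, h7⟩ := mg_basic e p q he j a
  by_cases hu : u = u'
  · subst hu
    have h8 : (κ, a) ≠ (κ', a') := fun e => h (by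
      have := Prod.mk.inj e
      rw [this.1, this.2])
    have h9 := mg_sep_x e p q he j κ κ' a a' h8
    have h10 : mgc e p q j u κ a - mgc e p q j u κ' a'
        = eta e * (xpos e p q j κ a - xpos e p q j κ' a') := by unfold mgc; ring
    rw [h10, abs_mul, abs_of_pos h1]
    exact mul_le_mul_of_nonneg_left h9 h1.le
  · have hu2 : (1 : ℝ) ≤ |((u : ℕ) : ℝ) - ((u' : ℕ) : ℝ)| := by
      have h8 : ((u : ℕ) : ℤ) - ((u' : ℕ) : ℤ) ≠ 0 := by
        intro h9
        apply hu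
        ext
        omega
      have h9 := Int.one_le_abs h8
      have h10 : ((1 : ℤ) : ℝ) ≤ ((|((u : ℕ) : ℤ) - ((u' : ℕ) : ℤ)| : ℤ) : ℝ) := by exact_mod_cast h9
      simpa using h10
    obtain ⟨b1, b2⟩ := mg_xpos e p q he j κ a
    obtain ⟨c1, c2⟩ := mg_xpos e p q he j κ' a'
    have h11 : |eta e * (xpos e p q j κ a - xpos e p q j κ' a')| ≤ 1 / 2 := by
      rw [abs_mul, abs_of_pos h1]
      have : |xpos e p q j κ a - xpos e p q j κ' a'| ≤ 4 := by
        rw [abs_le]; constructor <;> linarith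
      nlinarith [abs_nonneg (xpos e p q j κ a - xpos e p q j κ' a')]
    have h12 : mgc e p q j u κ a - mgc e p q j u' κ' a'
        = (((u : ℕ) : ℝ) - ((u' : ℕ) : ℝ)) + eta e * (xpos e p q j κ a - xpos e p q j κ' a') := by
      unfold mgc; ring
    rw [h12]
    have h13 := abs_sub_abs_le_abs_sub (((u : ℕ) : ℝ) - ((u' : ℕ) : ℝ))
      (-(eta e * (xpos e p q j κ a - xpos e p q j κ' a')))
    rw [abs_neg, sub_neg_eq_add] at h13
    nlinarith

private theorem mg_spos (e p q : ℕ) {A : ℕ} (j : Fin e) (u : Fin A) (κ : Fin 3) (a : Fin q)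
    (b : Bool) : spos e p q j u κ a b = mgc e p q j u κ a + sg b * (eta e * (eps e p q / 8)) := by
  unfold spos mgc; ring

/-- MG1 -/
theorem spos_sep (e p q : ℕ) (he : 2 ≤ e) {A : ℕ} (j : Fin e) (u u' : Fin A) (κ κ' : Fin 3)
    (a a' : Fin q) (b : Bool) (h : (u, κ, a) ≠ (u', κ', a')) :
    0 < (spos e p q j u κ a b - spos e p q j u' κ' a' false) *
      (spos e p q j u κ a b - spos e p q j u' κ' a' true) := by
  obtain ⟨h1, h2, h3, h4, h5, h6, h7⟩ := mg_basic e p q he j a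
  have h8 := mg_sep_c e p q he j u u' κ κ' a a' h
  rw [mg_spos, mg_spos, mg_spos]
  set C := mgc e p q j u κ a
  set C' := mgc e p q j u' κ' a'
  set ρ := eta e * (eps e p q / 8) with hρ
  have hρ0 : 0 < ρ := by positivity
  have h9 : 6 * ρ ≤ |C - C'| := by rw [hρ]; linarith
  have h10 : sg false = -1 := by simp [sg]
  have h11 : sg true = 1 := by simp [sg]
  rw [h10, h11]
  have h12 : sg b = 1 ∨ sg b = -1 := by cases b <;> simp [sg]
  rcases le_abs.1 h9 with h13 | h13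
  · apply mul_pos
    · rcases h12 with h | h <;> rw [h] <;> linarith
    · rcases h12 with h | h <;> rw [h] <;> linarith
  · apply mul_pos_of_neg_of_neg
    · rcases h12 with h | h <;> rw [h] <;> linarith
    · rcases h12 with h | h <;> rw [h] <;> linarith

/-- MG2 -/
theorem spos_lt (e p q : ℕ) (he : 2 ≤ e) {A : ℕ} (j : Fin e) (u : Fin A) (κ : Fin 3)
    (a : Fin q) : spos e p q j u κ a false < spos e p q j u κ a true := by
  obtain ⟨h1, h2, h3, h4, h5, h6, h7⟩ := mg_basic e p q he j a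
  rw [mg_spos, mg_spos]
  have h10 : sg false = -1 := by simp [sg]
  have h11 : sg true = 1 := by simp [sg]
  rw [h10, h11]
  have : 0 < eta e * (eps e p q / 8) := by positivity
  linarith

/-- MG3 -/
theorem spos_bounds (e p q : ℕ) (he : 2 ≤ e) {A : ℕ} (j : Fin e) (u : Fin A) (κ : Fin 3)
    (a : Fin q) (b : Bool) : 0 < spos e p q j u κ a b ∧ spos e p q j u κ a b < A + 10 := by
  obtain ⟨h1, h2, h3, h4, h5, h6, h7⟩ := mg_basic e p q he j a
  obtain ⟨b1, b2⟩ := mg_xpos e p q he j κ a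
  have h12 : sg b = 1 ∨ sg b = -1 := by cases b <;> simp [sg]
  have hu0 : (0 : ℝ) ≤ ((u : ℕ) : ℝ) := by positivity
  have hu1 : ((u : ℕ) : ℝ) + 1 ≤ A := by exact_mod_cast u.2
  unfold spos
  have h13 : -1 ≤ xpos e p q j κ a + sg b * (eps e p q / 8) := by
    rcases h12 with h | h <;> rw [h] <;> linarith
  have h14 : xpos e p q j κ a + sg b * (eps e p q / 8) ≤ 4 := by
    rcases h12 with h | h <;> rw [h] <;> linarith
  constructor
  · nlinarith
  · nlinarith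

/-- MG4 -/
theorem spos_inj (e p q : ℕ) (he : 2 ≤ e) {A : ℕ} (j : Fin e) (u u' : Fin A) (κ κ' : Fin 3)
    (a a' : Fin q) (b b' : Bool) (h : spos e p q j u κ a b = spos e p q j u' κ' a' b') :
    u = u' ∧ κ = κ' ∧ a = a' ∧ b = b' := by
  by_cases h1 : (u, κ, a) = (u', κ', a')
  · simp only [Prod.mk.injEq] at h1
    obtain ⟨rfl, rfl, rfl⟩ := h1
    refine ⟨rfl, rfl, rfl, ?_⟩
    have h2 := spos_lt e p q he j u κ a
    cases b <;> cases b' <;> first | rfl | (exfalso; linarith)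
  · exfalso
    have h2 := spos_sep e p q he j u u' κ κ' a a' b h1
    rw [h] at h2
    cases b' <;> simp at h2

end H260R3
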