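import Pool.Agent.H260R3.MA
import Pool.Agent.H260R3.MB
import Pool.Agent.H260R3.MD
import Pool.Agent.H260R3.ME
import Pool.Agent.H260R3.MG

namespace H260R3
open scoped BigOperators

/-- value at a base point -/
private theorem MH_base (e p : ℕ) (s : Fin e → ℝ) (δ : Fin p → ℝ) (j : Fin e) (t : ℝ) (ht : 0 < t) :
    aff 1 (gco e p s s δ) (bpt e p j t) = ((t - s j) / t) ^ 2 := by
  rw [aff_bpt]
  simp only [gco]
  field_simp
  ring

private theorem MH_base_pos (e p : ℕ) (s : Fin e → ℝ) (δ : Fin p → ℝ) (j : Fin e) (t : ℝ)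
    (ht : 0 < t) (h : t ≠ s j) : 0 < aff 1 (gco e p s s δ) (bpt e p j t) := by
  rw [MH_base e p s δ j t ht]
  have : (t - s j) / t ≠ 0 := div_ne_zero (sub_ne_zero.2 h) ht.ne'
  positivity

private theorem MH_free (e p q : ℕ) [NeZero e] (he : 2 ≤ e) (τ : Dig e p → Fin (q ^ e)) {A : ℕ}
    (u : Fin e → Fin A) (s : Fin e → ℝ)
    (hs : ∀ j, s j = A + 10 ∨ ∃ (v : Fin A) (x : ℝ), |x| ≤ 4 ∧ s j = ((v : ℕ) : ℝ) + 1 + eta e * x)
    (hl : ∃ l, s l = A + 10) (δ : Fin p → ℝ) (hδ : ∀ z, |δ z| ≤ 1) :
    0 < aff 1 (gco e p s s δ) (fpt e p q (digR τ) (addR u)) := by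
  have hz := zh_pos e p q he τ u
  rw [aff_fpt e p q (digR τ) (addR u) s s δ hz.ne']
  exact div_pos (far_pos e p q he τ u s hs hl δ hδ) hz

private theorem MH_sg (b : Bool) : |sg b| ≤ 1 := by
  unfold sg
  cases b <;> simp

/-- MH1: base points are exposed -/
theorem conf_vert_base (e p A q n : ℕ) [NeZero e] (he : 2 ≤ e) (addr : Fin n → Fin e → Fin A)
    (τ : Fin n → Dig e p → Fin (q ^ e)) (j : Fin e) (u : Fin A) (κ : Fin 3) (a : Fin q) (b : Bool) :
    IsFaceSet (conf e p A q n addr τ) {Sum.inl (Sum.inl (j, u, κ, a, b))} := by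
  set s : Fin e → ℝ := fun j' => if j' = j then spos e p q j u κ a b else A + 10 with hs
  have hsj : s j = spos e p q j u κ a b := by rw [hs]; simp
  have hso : ∀ j', j' ≠ j → s j' = A + 10 := fun j' h => by rw [hs]; simp [h]
  refine ⟨1, gco e p s s (fun _ => 0), ?_, ?_⟩
  · intro i hi
    rw [Set.mem_singleton_iff] at hi
    subst hi
    show aff 1 (gco e p s s (fun _ => 0)) (bpt e p j (spos e p q j u κ a b)) = 0
    rw [MH_base e p s _ j _ (spos_bounds e p q he j u κ a b).1, hsj]
    simp
  · intro i hi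
    rw [Set.mem_singleton_iff] at hi
    rcases i with (⟨j', u', κ', a', b'⟩ | ⟨z, b'⟩) | i
    · show 0 < aff 1 (gco e p s s (fun _ => 0)) (bpt e p j' (spos e p q j' u' κ' a' b'))
      have hb := spos_bounds e p q he j' u' κ' a' b'
      apply MH_base_pos e p s _ j' _ hb.1
      by_cases hj : j' = j
      · subst hj
        rw [hsj]
        intro h
        obtain ⟨h1, h2, h3, h4⟩ := spos_inj e p q he j' u' u κ' κ a' a b' b h
        subst h1; subst h2; subst h3; subst h4
        exact hi rfl
      · rw [hso j' hj]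
        exact hb.2.ne
    · show 0 < aff 1 (gco e p s s (fun _ => 0)) (apt e p z b')
      rw [aff_apt]
      simp [gco]
    · show 0 < aff 1 (gco e p s s (fun _ => 0)) (fpt e p q (digR (τ i)) (addR (addr i)))
      apply MH_free e p q he (τ i) (addr i) s
      · intro j'
        by_cases hj : j' = j
        · right
          refine ⟨u, _, xpos_bound e p q he j κ a b, ?_⟩
          rw [hj, hsj]
          rfl
        · left
          exact hso j' hj
      · by_cases h0 : j = ⟨0, by omega⟩
        · exact ⟨⟨1, by omega⟩, hso _ (by rw [h0]; simp [Fin.ext_iff])⟩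
        · exact ⟨⟨0, by omega⟩, hso _ (Ne.symm h0)⟩
      · intro z
        simp

/-- MH2: apexes are exposed -/
theorem conf_vert_apex (e p A q n : ℕ) [NeZero e] (he : 2 ≤ e) (addr : Fin n → Fin e → Fin A)
    (τ : Fin n → Dig e p → Fin (q ^ e)) (z : Fin p) (b : Bool) :
    IsFaceSet (conf e p A q n addr τ) {Sum.inl (Sum.inr (z, b))} := by
  set δ : Fin p → ℝ := fun z' => if z' = z then sg b else 0 with hδ
  refine ⟨1, gco e p (fun _ => A + 10) (fun _ => A + 10) δ, ?_, ?_⟩
  · intro i hi
    rw [Set.mem_singleton_iff] at hi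
    subst hi
    show aff 1 (gco e p (fun _ => A + 10) (fun _ => A + 10) δ) (apt e p z b) = 0
    rw [aff_apt]
    simp only [gco, hδ, if_true]
    unfold sg
    cases b <;> simp
  · intro i hi
    rw [Set.mem_singleton_iff] at hi
    rcases i with (⟨j', u', κ', a', b'⟩ | ⟨z', b'⟩) | i
    · show 0 < aff 1 (gco e p (fun _ => A + 10) (fun _ => A + 10) δ)
        (bpt e p j' (spos e p q j' u' κ' a' b'))
      have hb := spos_bounds e p q he j' u' κ' a' b'
      exact MH_base_pos e p _ _ j' _ hb.1 hb.2.ne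
    · show 0 < aff 1 (gco e p (fun _ => A + 10) (fun _ => A + 10) δ) (apt e p z' b')
      rw [aff_apt]
      simp only [gco, hδ]
      by_cases hz : z' = z
      · subst hz
        rw [if_pos rfl]
        have hb : b' ≠ b := by
          rintro rfl
          exact hi rfl
        unfold sg
        cases b <;> cases b' <;> simp at hb ⊢
      · rw [if_neg hz]
        simp
    · show 0 < aff 1 (gco e p (fun _ => A + 10) (fun _ => A + 10) δ)
        (fpt e p q (digR (τ i)) (addR (addr i)))
      apply MH_free e p q he (τ i) (addr i)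
      · intro j'
        exact Or.inl rfl
      · exact ⟨0, rfl⟩
      · intro z'
        rw [hδ]
        by_cases hz : z' = z
        · simp only [hz, if_true]
          exact MH_sg b
        · simp [hz]

end H260R3
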