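import Pool.Agent.H260R3.MA
import Pool.Agent.H260R3.MB
import Pool.Agent.H260R3.MD
import Pool.Agent.H260R3.ME
import Pool.Agent.H260R3.MG

namespace H260R3
open scoped BigOperators

private theorem mh2_shift {J : Type} [Fintype J] (g : ℝ) (a x : J → ℝ) :
    aff (1 - g) a x = aff 1 a x - g := by
  unfold aff; ring

/-- MH3: free points are exposed -/
theorem conf_vert_free (e p A q n : ℕ) [NeZero e] (he : 2 ≤ e) (addr : Fin n → Fin e → Fin A)
    (hinj : Function.Injective addr) (τ : Fin n → Dig e p → Fin (q ^ e)) (i : Fin n) :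
    IsFaceSet (conf e p A q n addr τ) {Sum.inr i} := by
  set s : Fin e → ℝ := fun j => addR (addr i) j + eta e * 2 with hs
  set a : Crd e p → ℝ := gco e p s s (fun _ => 0) with ha
  set g0 : ℝ := aff 1 a (conf e p A q n addr τ (Sum.inr i)) with hg0
  have hval : ∀ i' : Fin n, aff 1 a (conf e p A q n addr τ (Sum.inr i')) =
      (gplus e p q (digR (τ i')) (addR (addr i')) s s
        + ∑ z : Fin p, (1 - (fun _ : Fin p => (0 : ℝ)) z) * (eta e ^ 2 * zt e p q (digR (τ i')) z))
        / zh e p q (digR (τ i')) (addR (addr i')) := fun i' =>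
    aff_fpt e p q (digR (τ i')) (addR (addr i')) s s (fun _ => 0)
      (zh_pos e p q he (τ i') (addr i')).ne'
  have hg : g0 < 0 := by
    rw [hg0, hval i]
    exact div_neg_of_neg_of_pos
      (centre_neg e p q he (τ i) (addR (addr i)) (fun _ => 0) (by simp))
      (zh_pos e p q he (τ i) (addr i))
  refine ⟨1 - g0, a, ?_, ?_⟩
  · intro l hl
    rw [Set.mem_singleton_iff] at hl
    subst hl
    rw [mh2_shift, hg0, sub_self]
  · intro l hl
    rw [mh2_shift]
    rcases l with (⟨j, u, κ, b, c⟩ | ⟨z, b⟩) | i'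
    · have h1 : aff 1 a (conf e p A q n addr τ (Sum.inl (Sum.inl (j, u, κ, b, c))))
          = aff 1 a (bpt e p j (spos e p q j u κ b c)) := rfl
      obtain ⟨h2, -⟩ := spos_bounds e p q he j u κ b c
      set t := spos e p q j u κ b c
      have h3 : aff 1 a (bpt e p j t) = (t - s j) ^ 2 / t ^ 2 := by
        rw [aff_bpt, ha]
        simp only [gco]
        field_simp
        ring
      rw [h1, h3]
      have : 0 ≤ (t - s j) ^ 2 / t ^ 2 := by positivity
      linarith
    · have h1 : aff 1 a (conf e p A q n addr τ (Sum.inl (Sum.inr (z, b))))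
          = aff 1 a (apt e p z b) := rfl
      rw [h1, aff_apt, ha]
      simp only [gco, neg_zero, zero_mul, add_zero]
      linarith
    · have hne : i' ≠ i := by
        rintro rfl
        exact hl rfl
      have hne2 : addr i ≠ addr i' := fun h => hne (hinj h).symm
      have h1 := cross_pos e p q he (τ i') (addr i) (addr i') hne2 (fun _ => 2) (fun _ => 2)
        (fun _ => by rw [abs_of_pos] <;> norm_num) (fun _ => by rw [abs_of_pos] <;> norm_num)
        (fun _ => 0) (by simp)
      have h2 := zh_pos e p q he (τ i') (addr i')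
      have h3 : 0 < aff 1 a (conf e p A q n addr τ (Sum.inr i')) := by
        rw [hval i']
        exact div_pos h1 h2
      linarith

/-- MH4: the configuration spans -/
theorem conf_span (e p A q n : ℕ) [NeZero e] (he : 2 ≤ e) (hA : 0 < A) (hq : 0 < q)
    (addr : Fin n → Fin e → Fin A) (τ : Fin n → Dig e p → Fin (q ^ e))
    (c : ℝ) (a : Crd e p → ℝ) (h : ∀ l, aff c a (conf e p A q n addr τ l) = 0) :
    c = 0 ∧ a = 0 := by
  have hblock : ∀ j : Fin e, c = 0 ∧ a (Sum.inl (Sum.inl j)) = 0 ∧ a (Sum.inl (Sum.inr j)) = 0 := by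
    intro j
    have key : ∀ (κ : Fin 3) (b : Bool),
        c * (spos e p q j (⟨0, hA⟩ : Fin A) κ ⟨0, hq⟩ b) ^ 2
          + a (Sum.inl (Sum.inl j)) * (spos e p q j (⟨0, hA⟩ : Fin A) κ ⟨0, hq⟩ b)
          + a (Sum.inl (Sum.inr j)) = 0 := by
      intro κ b
      have h1 : aff c a (bpt e p j (spos e p q j (⟨0, hA⟩ : Fin A) κ ⟨0, hq⟩ b)) = 0 :=
        h (Sum.inl (Sum.inl (j, ⟨0, hA⟩, κ, ⟨0, hq⟩, b)))
      rw [aff_bpt] at h1
      obtain ⟨h2, -⟩ := spos_bounds e p q he j (⟨0, hA⟩ : Fin A) κ ⟨0, hq⟩ b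
      set t := spos e p q j (⟨0, hA⟩ : Fin A) κ ⟨0, hq⟩ b
      field_simp at h1
      linarith
    have k1 := key 0 false
    have k2 := key 0 true
    have k3 := key 1 false
    have d12 : spos e p q j (⟨0, hA⟩ : Fin A) 0 ⟨0, hq⟩ false
        - spos e p q j (⟨0, hA⟩ : Fin A) 0 ⟨0, hq⟩ true ≠ 0 := by
      intro h0
      have := (spos_inj e p q he j _ _ _ _ _ _ _ _ (sub_eq_zero.1 h0)).2.2.2
      exact absurd this (by decide)
    have d13 : spos e p q j (⟨0, hA⟩ : Fin A) 0 ⟨0, hq⟩ false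
        - spos e p q j (⟨0, hA⟩ : Fin A) 1 ⟨0, hq⟩ false ≠ 0 := by
      intro h0
      have := (spos_inj e p q he j _ _ _ _ _ _ _ _ (sub_eq_zero.1 h0)).2.1
      exact absurd this (by decide)
    have d23 : spos e p q j (⟨0, hA⟩ : Fin A) 0 ⟨0, hq⟩ true
        - spos e p q j (⟨0, hA⟩ : Fin A) 1 ⟨0, hq⟩ false ≠ 0 := by
      intro h0
      have := (spos_inj e p q he j _ _ _ _ _ _ _ _ (sub_eq_zero.1 h0)).2.1
      exact absurd this (by decide)
    set s1 := spos e p q j (⟨0, hA⟩ : Fin A) 0 ⟨0, hq⟩ false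
    set s2 := spos e p q j (⟨0, hA⟩ : Fin A) 0 ⟨0, hq⟩ true
    set s3 := spos e p q j (⟨0, hA⟩ : Fin A) 1 ⟨0, hq⟩ false
    set X := a (Sum.inl (Sum.inl j))
    set Y := a (Sum.inl (Sum.inr j))
    have m1 : (s1 - s2) * (c * (s1 + s2) + X) = 0 := by linear_combination k1 - k2
    have m2 : (s1 - s3) * (c * (s1 + s3) + X) = 0 := by linear_combination k1 - k3
    have m1' := (mul_eq_zero.1 m1).resolve_left d12
    have m2' := (mul_eq_zero.1 m2).resolve_left d13
    have m3 : (s2 - s3) * c = 0 := by linear_combination m1' - m2'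
    have hc := (mul_eq_zero.1 m3).resolve_left d23
    rw [hc] at m1' k1
    have hX : X = 0 := by linear_combination m1'
    rw [hX] at k1
    exact ⟨hc, hX, by linear_combination k1⟩
  have hc : c = 0 := (hblock ⟨0, by omega⟩).1
  refine ⟨hc, ?_⟩
  funext k
  rcases k with (j | j) | z
  · exact (hblock j).2.1
  · exact (hblock j).2.2
  · have h1 : aff c a (apt e p z true) = 0 := h (Sum.inl (Sum.inr (z, true)))
    rw [aff_apt, hc] at h1
    simpa [sg] using h1

end H260R3
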