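import Pool.Agent.H260R3.MA
import Pool.Agent.H260R3.MB
import Pool.Agent.H260R3.MG

namespace H260R3
open scoped BigOperators

private theorem MI_sg (b : Bool) : sg b * sg b = 1 := by
  cases b <;> norm_num [sg]

private theorem MI_sg_ne {b b' : Bool} (h : b ≠ b') : sg b * sg b' = -1 := by
  cases b <;> cases b' <;> simp_all [sg]

private theorem MI_base (e p : ℕ) (s s' : Fin e → ℝ) (δ : Fin p → ℝ) (j : Fin e) (t : ℝ)
    (ht : t ≠ 0) :
    aff 1 (gco e p s s' δ) (bpt e p j t) = (t - s j) * (t - s' j) / t ^ 2 := by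
  rw [aff_bpt]
  simp only [gco]
  field_simp
  ring

private theorem MI_apex (e p : ℕ) (s s' : Fin e → ℝ) (δ : Fin p → ℝ) (z : Fin p) (b : Bool) :
    aff 1 (gco e p s s' δ) (apt e p z b) = 1 - δ z * sg b := by
  rw [aff_apt]
  simp only [gco]
  ring

/-- MI: candidate facets -/
theorem face_iff (e p A q n : ℕ) [NeZero e] (he : 2 ≤ e) (addr : Fin n → Fin e → Fin A)
    (τ : Fin n → Dig e p → Fin (q ^ e)) (u : Fin e → Fin A) (k : Dig e p) (a : Fin e → Fin q) :
    IsFaceSet (conf e p A q n addr τ) (fset u k a) ↔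
      ∀ i, 0 < gplus e p q (digR (τ i)) (addR (addr i))
        (fun j => spos e p q j (u j) (kap k j) (a j) false)
        (fun j => spos e p q j (u j) (kap k j) (a j) true) +
      ∑ z, (1 - sg (del k z)) * (eta e ^ 2 * zt e p q (digR (τ i)) z) := by
  set s : Fin e → ℝ := fun j => spos e p q j (u j) (kap k j) (a j) false with hs
  set s' : Fin e → ℝ := fun j => spos e p q j (u j) (kap k j) (a j) true with hs'
  have hspos : ∀ j (u' : Fin A) κ' a' b, (0 : ℝ) < spos e p q j u' κ' a' b := fun j u' κ' a' b =>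
    (spos_bounds e p q he j u' κ' a' b).1
  have hzh : ∀ i, 0 < zh e p q (digR (τ i)) (addR (addr i)) := fun i =>
    zh_pos e p q he (τ i) (addr i)
  -- value at base points off the set
  have hoff : ∀ (j : Fin e) (u' : Fin A) (κ' : Fin 3) (a' : Fin q) (b : Bool),
      (u', κ', a') ≠ (u j, kap k j, a j) →
      0 < (spos e p q j u' κ' a' b - s j) * (spos e p q j u' κ' a' b - s' j) /
        spos e p q j u' κ' a' b ^ 2 := by
    intro j u' κ' a' b h
    apply div_pos
    · exact spos_sep e p q he j u' (u j) κ' (kap k j) a' (a j) b h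
    · exact pow_pos (hspos j u' κ' a' b) 2
  constructor
  · rintro ⟨c, a0, h0, h1⟩ i
    -- the functional is a multiple of gco
    have hX : ∀ j, a0 (Sum.inl (Sum.inl j)) = c * (-(s j + s' j)) ∧
        a0 (Sum.inl (Sum.inr j)) = c * (s j * s' j) := by
      intro j
      have e1 := h0 (Sum.inl (Sum.inl (j, u j, kap k j, a j, false))) (Or.inl ⟨j, false, rfl⟩)
      have e2 := h0 (Sum.inl (Sum.inl (j, u j, kap k j, a j, true))) (Or.inl ⟨j, true, rfl⟩)
      simp only [conf] at e1 e2
      rw [aff_bpt] at e1 e2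
      have p1 : (0 : ℝ) < s j := hspos _ _ _ _ _
      have p2 : (0 : ℝ) < s' j := hspos _ _ _ _ _
      have p3 : s j < s' j := spos_lt e p q he j (u j) (kap k j) (a j)
      change c + a0 (Sum.inl (Sum.inl j)) / s j + a0 (Sum.inl (Sum.inr j)) / s j ^ 2 = 0 at e1
      change c + a0 (Sum.inl (Sum.inl j)) / s' j + a0 (Sum.inl (Sum.inr j)) / s' j ^ 2 = 0 at e2
      have f1 : c * s j ^ 2 + a0 (Sum.inl (Sum.inl j)) * s j + a0 (Sum.inl (Sum.inr j)) = 0 := by
        have : c * s j ^ 2 + a0 (Sum.inl (Sum.inl j)) * s j + a0 (Sum.inl (Sum.inr j)) =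
          (c + a0 (Sum.inl (Sum.inl j)) / s j + a0 (Sum.inl (Sum.inr j)) / s j ^ 2) * s j ^ 2 := by
          field_simp
        rw [this, e1, zero_mul]
      have f2 : c * s' j ^ 2 + a0 (Sum.inl (Sum.inl j)) * s' j + a0 (Sum.inl (Sum.inr j)) = 0 := by
        have : c * s' j ^ 2 + a0 (Sum.inl (Sum.inl j)) * s' j + a0 (Sum.inl (Sum.inr j)) =
          (c + a0 (Sum.inl (Sum.inl j)) / s' j + a0 (Sum.inl (Sum.inr j)) / s' j ^ 2) *
            s' j ^ 2 := by
          field_simp
        rw [this, e2, zero_mul]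
      have f3 : (s' j - s j) * (c * (s j + s' j) + a0 (Sum.inl (Sum.inl j))) = 0 := by
        linear_combination f2 - f1
      have f4 : c * (s j + s' j) + a0 (Sum.inl (Sum.inl j)) = 0 := by
        rcases mul_eq_zero.1 f3 with h | h
        · exact absurd h (by linarith [p3] : s' j - s j ≠ 0)
        · exact h
      constructor
      · linarith
      · linear_combination f1 - s j * f4
    have hZ : ∀ z, a0 (Sum.inr z) = c * (-(sg (del k z))) := by
      intro z
      have e1 := h0 (Sum.inl (Sum.inr (z, del k z))) (Or.inr ⟨z, rfl⟩)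
      simp only [conf] at e1
      rw [aff_apt] at e1
      have e2 := MI_sg (del k z)
      linear_combination sg (del k z) * e1 - a0 (Sum.inr z) * e2
    have ha0 : ∀ l, a0 l = c * gco e p s s' (fun z => sg (del k z)) l := by
      rintro ((j | j) | z)
      · rw [(hX j).1]; rfl
      · rw [(hX j).2]; rfl
      · rw [hZ z]; rfl
    have haff : ∀ x, aff c a0 x = c * aff 1 (gco e p s s' (fun z => sg (del k z))) x := by
      intro x
      unfold aff
      rw [mul_add, mul_one, Finset.mul_sum]
      congr 1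
      apply Finset.sum_congr rfl
      intro l _
      rw [ha0 l, mul_assoc]
    -- positivity of c
    have hc : 0 < c := by
      set κ' : Fin 3 := kap k 0 + 1 with hκ'
      have hne : (u 0, κ', a 0) ≠ (u 0, kap k 0, a 0) := by
        intro h
        simp only [Prod.mk.injEq, and_true, true_and] at h
        rw [hκ'] at h
        revert h
        generalize kap k 0 = x
        fin_cases x <;> decide
      have h2 := h1 (Sum.inl (Sum.inl (0, u 0, κ', a 0, true))) (by
        rintro (⟨j, b, h⟩ | ⟨z, h⟩)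
        · simp only [Sum.inl.injEq, Prod.mk.injEq] at h
          obtain ⟨h3, h4, h5, h6, h7⟩ := h
          subst h3
          exact hne (by rw [h5])
        · simp at h)
      simp only [conf] at h2
      rw [haff, MI_base _ _ _ _ _ _ _ (hspos _ _ _ _ _).ne'] at h2
      exact (mul_pos_iff_of_pos_right (hoff 0 (u 0) κ' (a 0) true hne)).1 h2
    have h3 := h1 (Sum.inr i) (by
      rintro (⟨j, b, h⟩ | ⟨z, h⟩) <;> simp at h)
    simp only [conf] at h3
    rw [haff, aff_fpt _ _ _ _ _ _ _ _ (hzh i).ne'] at h3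
    have h4 := (mul_pos_iff_of_pos_left hc).1 h3
    exact (div_pos_iff_of_pos_right (hzh i)).1 h4
  · intro H
    refine ⟨1, gco e p s s' (fun z => sg (del k z)), ?_, ?_⟩
    · rintro l (⟨j, b, rfl⟩ | ⟨z, rfl⟩)
      · simp only [conf]
        rw [MI_base _ _ _ _ _ _ _ (hspos _ _ _ _ _).ne']
        cases b
        · simp [hs]
        · simp [hs']
      · simp only [conf]
        rw [MI_apex]
        rw [MI_sg, sub_self]
    · rintro ((⟨j, u', κ', a', b⟩ | ⟨z, b⟩) | i) hl
      · simp only [conf]
        rw [MI_base _ _ _ _ _ _ _ (hspos _ _ _ _ _).ne']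
        apply hoff
        intro h
        simp only [Prod.mk.injEq] at h
        obtain ⟨h1, h2, h3⟩ := h
        apply hl
        left
        refine ⟨j, b, ?_⟩
        rw [h1, h2, h3]
      · simp only [conf]
        rw [MI_apex]
        have hne : del k z ≠ b := by
          intro h
          apply hl
          right
          exact ⟨z, by rw [h]⟩
        rw [MI_sg_ne hne]
        norm_num
      · simp only [conf]
        rw [aff_fpt _ _ _ _ _ _ _ _ (hzh i).ne']
        exact div_pos (H i) (hzh i)

end H260R3
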