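import Pool.Agent.H260R3.MC
import Pool.Agent.H260R3.MD
import Pool.Agent.H260R3.MI

namespace H260R3
open scoped BigOperators

/-- MJ: reading -/
theorem read (e p A q n : ℕ) [NeZero e] (he : 2 ≤ e) (addr : Fin n → Fin e → Fin A)
    (hinj : Function.Injective addr) (τ : Fin n → Dig e p → Fin (q ^ e)) (i : Fin n)
    (k : Dig e p) (a : Fin e → Fin q) :
    IsFaceSet (conf e p A q n addr τ) (fset (addr i) k a) ↔ τ i k ≤ finFunctionFinEquiv a := by
  rw [face_iff e p A q n he addr τ (addr i) k a]
  constructor
  · intro h
    exact (own_sign e p q he (τ i) (addR (addr i)) k a).1 (h i)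
  · intro h i'
    by_cases hi : i' = i
    · subst hi
      exact (own_sign e p q he (τ i') (addR (addr i')) k a).2 h
    · have hne : addr i ≠ addr i' := fun h' => hi (hinj h').symm
      exact cross_pos e p q he (τ i') (addr i) (addr i') hne
        (fun j => xpos e p q j (kap k j) (a j) + sg false * (eps e p q / 8))
        (fun j => xpos e p q j (kap k j) (a j) + sg true * (eps e p q / 8))
        (fun j => xpos_bound e p q he j _ _ _) (fun j => xpos_bound e p q he j _ _ _)
        (fun z => sg (del k z)) (fun z => by
          show |sg (del k z)| ≤ 1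
          unfold sg
          split_ifs <;> simp)

end H260R3
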