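import Pool.Agent.H260R3.Defs

namespace H260R3
open scoped BigOperators

private theorem PC_single {ι ι' : Type} (𝓢 : Set (Set ι)) (𝓢' : Set (Set ι')) (h0 : ∅ ∈ 𝓢)
    (h0' : ∅ ∈ 𝓢') (h1 : ∀ i, {i} ∈ 𝓢) (h1' : ∀ i, {i} ∈ 𝓢') (Ψ : 𝓢 ≃o 𝓢') (i : ι) :
    ∃ j, Ψ ⟨{i}, h1 i⟩ = ⟨{j}, h1' j⟩ := by
  have hbot : (Ψ ⟨∅, h0⟩) = ⟨∅, h0'⟩ := by
    apply le_antisymm
    · rw [← OrderIso.le_symm_apply]
      exact (Set.empty_subset _ : (∅ : Set ι) ⊆ (Ψ.symm ⟨∅, h0'⟩).1)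
    · exact (Set.empty_subset _ : (∅ : Set ι') ⊆ (Ψ ⟨∅, h0⟩).1)
  have hne : ((Ψ ⟨{i}, h1 i⟩).1).Nonempty := by
    rw [Set.nonempty_iff_ne_empty]
    intro h
    have h2 : Ψ ⟨{i}, h1 i⟩ = Ψ ⟨∅, h0⟩ := by
      rw [hbot]; exact Subtype.ext h
    have h3 := Ψ.injective h2
    exact Set.singleton_ne_empty i (congrArg Subtype.val h3)
  obtain ⟨j, hj⟩ := hne
  refine ⟨j, ?_⟩
  have h4 : (⟨{j}, h1' j⟩ : 𝓢') ≤ Ψ ⟨{i}, h1 i⟩ := (Set.singleton_subset_iff.2 hj :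
    ({j} : Set ι') ⊆ (Ψ ⟨{i}, h1 i⟩).1)
  rw [← OrderIso.symm_apply_le] at h4
  have h5 : (Ψ.symm ⟨{j}, h1' j⟩).1 ⊆ {i} := h4
  rcases Set.subset_singleton_iff_eq.1 h5 with h6 | h6
  · exfalso
    have h7 : Ψ.symm ⟨{j}, h1' j⟩ = ⟨∅, h0⟩ := Subtype.ext h6
    have h8 : (⟨{j}, h1' j⟩ : 𝓢') = Ψ ⟨∅, h0⟩ := by rw [← h7, OrderIso.apply_symm_apply]
    rw [hbot] at h8
    exact Set.singleton_ne_empty j (congrArg Subtype.val h8)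
  · have h7 : Ψ.symm ⟨{j}, h1' j⟩ = ⟨{i}, h1 i⟩ := Subtype.ext h6
    rw [← h7, OrderIso.apply_symm_apply]

/-- PC -/
theorem perm_of_iso {ι ι' : Type} (𝓢 : Set (Set ι)) (𝓢' : Set (Set ι')) (h0 : ∅ ∈ 𝓢)
    (h0' : ∅ ∈ 𝓢') (h1 : ∀ i, {i} ∈ 𝓢) (h1' : ∀ i, {i} ∈ 𝓢') (Ψ : 𝓢 ≃o 𝓢') :
    ∃ π : ι ≃ ι', ∀ S : Set ι, S ∈ 𝓢 ↔ π '' S ∈ 𝓢' := by
  choose f hf using PC_single 𝓢 𝓢' h0 h0' h1 h1' Ψ
  choose g hg using PC_single 𝓢' 𝓢 h0' h0 h1' h1 Ψ.symm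
  have hgf : ∀ i, g (f i) = i := by
    intro i
    have h2 := hg (f i)
    rw [← hf i, OrderIso.symm_apply_apply] at h2
    exact (Set.singleton_injective (congrArg Subtype.val h2)).symm
  have hfg : ∀ j, f (g j) = j := by
    intro j
    have h2 := hf (g j)
    rw [← hg j, OrderIso.apply_symm_apply] at h2
    exact (Set.singleton_injective (congrArg Subtype.val h2)).symm
  refine ⟨⟨f, g, hgf, hfg⟩, ?_⟩
  have key : ∀ (S : 𝓢), (Ψ S).1 = f '' S.1 := by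
    intro S
    ext j
    constructor
    · intro hj
      refine ⟨g j, ?_, hfg j⟩
      have h2 : (⟨{j}, h1' j⟩ : 𝓢') ≤ Ψ S := (Set.singleton_subset_iff.2 hj : ({j} : Set ι') ⊆ (Ψ S).1)
      rw [← OrderIso.symm_apply_le, hg j] at h2
      exact Set.singleton_subset_iff.1 (h2 : ({g j} : Set ι) ⊆ S.1)
    · rintro ⟨i, hi, rfl⟩
      have h2 : (⟨{i}, h1 i⟩ : 𝓢) ≤ S := (Set.singleton_subset_iff.2 hi : ({i} : Set ι) ⊆ S.1)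
      have h3 := Ψ.monotone h2
      rw [hf i] at h3
      exact Set.singleton_subset_iff.1 (h3 : ({f i} : Set ι') ⊆ (Ψ S).1)
  intro S
  change S ∈ 𝓢 ↔ f '' S ∈ 𝓢'
  constructor
  · intro hS
    rw [← key ⟨S, hS⟩]
    exact (Ψ ⟨S, hS⟩).2
  · intro hS
    have h2 := key (Ψ.symm ⟨f '' S, hS⟩)
    rw [OrderIso.apply_symm_apply] at h2
    have h3 : Function.Injective f := Function.LeftInverse.injective hgf
    have h4 : S = (Ψ.symm ⟨f '' S, hS⟩).1 := h3.image_injective h2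
    rw [h4]
    exact (Ψ.symm ⟨f '' S, hS⟩).2

end H260R3
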