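import Pool.Agent.H260R3.PA

namespace H260R3
open scoped BigOperators

/-- PD -/
theorem good_injective {ι J : Type} [Fintype J] (V : ι → J → ℝ) (hV : Good V) :
    Function.Injective V := by
  intro i i' h
  by_contra hne
  obtain ⟨c, a, h0, h1⟩ := hV.vert i
  have h2 := h0 i rfl
  have h3 := h1 i' (fun h' => hne (Set.mem_singleton_iff.1 h').symm)
  rw [← h, h2] at h3
  exact lt_irrefl _ h3

/-- affine functions respect convex combinations -/
theorem PD_aff_comb {J : Type} [Fintype J] (c : ℝ) (a : J → ℝ) (x y : J → ℝ) (s t : ℝ)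
    (hst : s + t = 1) : aff c a (s • x + t • y) = s * aff c a x + t * aff c a y := by
  unfold aff
  have h1 : ∑ k, a k * (s • x + t • y) k = s * (∑ k, a k * x k) + t * ∑ k, a k * y k := by
    rw [Finset.mul_sum, Finset.mul_sum, ← Finset.sum_add_distrib]
    refine Finset.sum_congr rfl (fun k _ => ?_)
    simp only [Pi.add_apply, Pi.smul_apply, smul_eq_mul]
    ring
  rw [h1]
  have : c = (s + t) * c := by rw [hst, one_mul]
  linear_combination this

/-- PD' -/
theorem extreme_eq {ι J : Type} [Fintype ι] [Fintype J] (V : ι → J → ℝ) (hV : Good V) :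
    (convexHull ℝ (Set.range V)).extremePoints ℝ = Set.range V := by
  apply Set.Subset.antisymm
  · exact extremePoints_convexHull_subset
  · rintro _ ⟨i, rfl⟩
    obtain ⟨c, a, h0, h1⟩ := hV.vert i
    have hnn : ∀ i', 0 ≤ aff c a (V i') := by
      intro i'
      by_cases h : i' = i
      · subst h; rw [h0 i' rfl]
      · exact (h1 i' (by simpa using h)).le
    have hset : {i' | aff c a (V i') = 0} = {i} := by
      ext i'
      simp only [Set.mem_setOf_eq, Set.mem_singleton_iff]
      constructor
      · intro h
        by_contra hne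
        have := h1 i' (by simpa using hne)
        rw [h] at this
        exact lt_irrefl _ this
      · rintro rfl
        exact h0 i' rfl
    have hface := face_hull V c a hnn
    rw [hset, Set.image_singleton, convexHull_singleton] at hface
    have key : ∀ x ∈ convexHull ℝ (Set.range V), aff c a x = 0 → x = V i := by
      intro x hx hx0
      have : x ∈ {x | x ∈ convexHull ℝ (Set.range V) ∧ aff c a x = 0} := ⟨hx, hx0⟩
      rw [hface] at this
      exact this
    rw [mem_extremePoints]
    refine ⟨subset_convexHull ℝ _ ⟨i, rfl⟩, ?_⟩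
    intro x hx y hy hxy
    obtain ⟨s, t, hs, ht, hst, he⟩ := hxy
    have hx0 := aff_nonneg_hull V c a hnn x hx
    have hy0 := aff_nonneg_hull V c a hnn y hy
    have h2 : s * aff c a x + t * aff c a y = 0 := by
      rw [← PD_aff_comb c a x y s t hst, he, h0 i rfl]
    have hx1 : aff c a x = 0 := by
      have : 0 ≤ t * aff c a y := mul_nonneg ht.le hy0
      have h3 : s * aff c a x ≤ 0 := by linarith
      by_contra hne
      have h4 : 0 < aff c a x := lt_of_le_of_ne hx0 (Ne.symm hne)
      have := mul_pos hs h4
      linarith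
    have hy1 : aff c a y = 0 := by
      rw [hx1, mul_zero, zero_add] at h2
      rcases mul_eq_zero.1 h2 with h | h
      · exact absurd h ht.ne'
      · exact h
    exact ⟨key x hx hx1, key y hy hy1⟩

/-- PD'' -/
theorem interior_hull_nonempty {ι : Type} [Fintype ι] {d : ℕ} (V : ι → Fin d → ℝ)
    (hV : Good V) : (interior (convexHull ℝ (Set.range V))).Nonempty := by
  rw [interior_convexHull_nonempty_iff_affineSpan_eq_top]
  have hne : Nonempty ι := by
    by_contra h
    rw [not_nonempty_iff] at h
    have := (hV.span 1 0 (fun i => h.elim i)).1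
    exact one_ne_zero this
  obtain ⟨i0⟩ := hne
  have hnonempty : ((affineSpan ℝ (Set.range V) : AffineSubspace ℝ (Fin d → ℝ)) :
      Set (Fin d → ℝ)).Nonempty := ⟨V i0, subset_affineSpan ℝ _ ⟨i0, rfl⟩⟩
  rw [← AffineSubspace.direction_eq_top_iff_of_nonempty hnonempty]
  by_contra hW
  obtain ⟨f, hf0, hf⟩ := Submodule.exists_le_ker_of_lt_top _ (lt_top_iff_ne_top.2 hW)
  have hfa : ∀ x : Fin d → ℝ, f x = ∑ k, f (Pi.single k 1) * x k := by
    intro x
    have hx : x = ∑ k, x k • (Pi.single k (1:ℝ) : Fin d → ℝ) := by
      ext j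
      simp [Finset.sum_apply, Pi.single_apply]
    conv_lhs => rw [hx]
    rw [map_sum]
    refine Finset.sum_congr rfl (fun k _ => ?_)
    rw [map_smul, smul_eq_mul, mul_comm]
  have h := hV.span (-f (V i0)) (fun k => f (Pi.single k 1)) (by
    intro i
    unfold aff
    rw [← hfa]
    have hmem : V i - V i0 ∈ (affineSpan ℝ (Set.range V)).direction :=
      AffineSubspace.vsub_mem_direction (subset_affineSpan ℝ _ ⟨i, rfl⟩)
        (subset_affineSpan ℝ _ ⟨i0, rfl⟩)
    have := hf hmem
    rw [LinearMap.mem_ker, map_sub] at this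
    linarith)
  apply hf0
  ext k
  simp only [LinearMap.coe_comp, Function.comp_apply, LinearMap.coe_single, LinearMap.zero_apply]
  exact congrFun h.2 k

end H260R3
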