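import Pool.Agent.H260R3.Defs

namespace H260R3
open scoped BigOperators

private theorem PF_lin {d : ℕ} (f : (Fin d → ℝ) →L[ℝ] ℝ) (x : Fin d → ℝ) :
    f x = ∑ k, f (Pi.single k 1) * x k := by
  have hx : x = ∑ k, x k • (Pi.single k (1:ℝ) : Fin d → ℝ) := by
    ext j
    simp [Finset.sum_apply, Pi.single_apply]
  conv_lhs => rw [hx]
  rw [map_sum]
  refine Finset.sum_congr rfl (fun k _ => ?_)
  rw [map_smul, smul_eq_mul, mul_comm]

/-- PF -/
theorem polytope_repr {d v : ℕ} (P : Polytope d v) :
    ∃ V : Fin v → Fin d → ℝ, Good V ∧ P.1 = convexHull ℝ (Set.range V) := by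
  obtain ⟨P, ⟨S, hS⟩, hint, hv⟩ := P
  show ∃ V : Fin v → Fin d → ℝ, Good V ∧ P = convexHull ℝ (Set.range V)
  set E := P.extremePoints ℝ with hE
  have hES : E ⊆ (S : Set (Fin d → ℝ)) := by
    rw [hE, hS]; exact extremePoints_convexHull_subset
  have hEfin : E.Finite := S.finite_toSet.subset hES
  have hPc : IsCompact P := by rw [hS]; exact S.finite_toSet.isCompact_convexHull (𝕜 := ℝ)
  have hPconv : Convex ℝ P := by rw [hS]; exact convex_convexHull ℝ _
  have hPE : P = convexHull ℝ E := by
    have h1 := closure_convexHull_extremePoints hPc hPconv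
    have h2 : IsClosed (convexHull ℝ E) := (hEfin.isCompact_convexHull (𝕜 := ℝ)).isClosed
    rw [← hE, h2.closure_eq] at h1
    exact h1.symm
  -- enumeration
  have hcard : hEfin.toFinset.card = v := by
    rw [← Set.ncard_eq_toFinset_card E hEfin]; exact hv
  let φ : Fin v ≃ hEfin.toFinset := (hEfin.toFinset.equivFinOfCardEq hcard).symm
  let V : Fin v → Fin d → ℝ := fun i => (φ i : Fin d → ℝ)
  have hVinj : Function.Injective V := fun i j h => φ.injective (Subtype.ext h)
  have hVrange : Set.range V = E := by
    ext x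
    constructor
    · rintro ⟨i, rfl⟩
      exact hEfin.mem_toFinset.1 (φ i).2
    · intro hx
      exact ⟨φ.symm ⟨x, hEfin.mem_toFinset.2 hx⟩, by simp [V]⟩
  refine ⟨V, ⟨?_, ?_⟩, by rw [hVrange]; exact hPE⟩
  · intro i
    have hVi : V i ∈ E := hVrange ▸ ⟨i, rfl⟩
    have hdiff : Convex ℝ (P \ {V i}) :=
      ((hPconv.mem_extremePoints_iff_convex_diff).1 hVi).2
    set K := convexHull ℝ (E \ {V i}) with hK
    have hKsub : K ⊆ P \ {V i} := by
      apply convexHull_min _ hdiff
      rintro x ⟨hx, hxi⟩
      exact ⟨extremePoints_subset hx, hxi⟩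
    have hKclosed : IsClosed K := ((hEfin.subset Set.diff_subset).isCompact_convexHull (𝕜 := ℝ)).isClosed
    have hnot : V i ∉ K := fun h => (hKsub h).2 rfl
    obtain ⟨f, u, h1, h2⟩ := geometric_hahn_banach_point_closed (convex_convexHull ℝ _) hKclosed hnot
    refine ⟨-f (V i), fun k => f (Pi.single k 1), ?_, ?_⟩
    · intro j hj
      rw [Set.mem_singleton_iff] at hj
      subst hj
      unfold aff
      rw [← PF_lin]; ring
    · intro j hj
      unfold aff
      rw [← PF_lin]
      have hjK : V j ∈ K := by
        apply subset_convexHull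
        refine ⟨hVrange ▸ ⟨j, rfl⟩, ?_⟩
        intro h
        exact hj (hVinj h)
      have := h2 (V j) hjK
      linarith
  · intro c a h
    have hall : ∀ x ∈ P, aff c a x = 0 := by
      have hconv : Convex ℝ {x : Fin d → ℝ | aff c a x = 0} := by
        intro x hx y hy s t _ _ hst
        simp only [Set.mem_setOf_eq] at hx hy ⊢
        unfold aff at hx hy ⊢
        have h1 : ∑ k, a k * (s • x + t • y) k = s * (∑ k, a k * x k) + t * ∑ k, a k * y k := by
          rw [Finset.mul_sum, Finset.mul_sum, ← Finset.sum_add_distrib]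
          refine Finset.sum_congr rfl (fun k _ => ?_)
          simp only [Pi.add_apply, Pi.smul_apply, smul_eq_mul]
          ring
        rw [h1]
        have : c = (s + t) * c := by rw [hst, one_mul]
        linear_combination this + s * hx + t * hy
      intro x hx
      rw [hPE, ← hVrange] at hx
      have : convexHull ℝ (Set.range V) ⊆ {x : Fin d → ℝ | aff c a x = 0} := by
        apply convexHull_min _ hconv
        rintro _ ⟨i, rfl⟩
        exact h i
      exact this hx
    obtain ⟨x0, hx0⟩ := hint
    rw [mem_interior_iff_mem_nhds, Metric.mem_nhds_iff] at hx0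
    obtain ⟨r, hr, hball⟩ := hx0
    have h0 := hall x0 (hball (Metric.mem_ball_self hr))
    have ha : a = 0 := by
      funext k
      have hmem : x0 + (r / 2) • (Pi.single k (1:ℝ) : Fin d → ℝ) ∈ P := by
        apply hball
        rw [Metric.mem_ball, dist_eq_norm, add_sub_cancel_left, norm_smul, Pi.norm_single,
          norm_one, mul_one, Real.norm_eq_abs, abs_of_pos (by linarith)]
        linarith
      have h1 := hall _ hmem
      unfold aff at h0 h1
      have h2 : ∑ j, a j * (x0 + (r / 2) • (Pi.single k (1:ℝ) : Fin d → ℝ)) j =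
          (∑ j, a j * x0 j) + a k * (r / 2) := by
        simp only [Pi.add_apply, Pi.smul_apply, smul_eq_mul, mul_add, Finset.sum_add_distrib,
          Pi.single_apply]
        congr 1
        rw [Finset.sum_eq_single k]
        · simp
        · intro j _ hj
          simp [hj]
        · intro hk
          exact absurd (Finset.mem_univ k) hk
      rw [h2] at h1
      have h3 : a k * (r / 2) = 0 := by linarith
      rcases mul_eq_zero.1 h3 with h | h
      · exact h
      · linarith
    refine ⟨?_, ha⟩
    unfold aff at h0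
    rw [ha] at h0
    simpa using h0

end H260R3
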