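import Pool.Agent.H260R3.PB
import Pool.Agent.H260R3.PF

namespace H260R3
open scoped BigOperators

/-- PG -/
theorem finite_types (d v : ℕ) : Finite (Quotient (combEquiv d v)) := by
  classical
  let W : Polytope d v → Fin v → Fin d → ℝ := fun P => Classical.choose (polytope_repr P)
  have hW : ∀ P : Polytope d v, Good (W P) ∧ P.1 = convexHull ℝ (Set.range (W P)) :=
    fun P => Classical.choose_spec (polytope_repr P)
  let Sys : Polytope d v → Set (Set (Fin v)) := fun P => {S | IsFaceSet (W P) S}
  have hiso : ∀ P : Polytope d v, Nonempty (Face P.1 ≃o {S : Set (Fin v) // S ∈ Sys P}) := by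
    intro P
    obtain ⟨hg, he⟩ := hW P
    rw [he]
    exact faceIso (W P) hg
  have hkey : ∀ P Q : Polytope d v, Sys P = Sys Q → Nonempty (Face P.1 ≃o Face Q.1) := by
    intro P Q h
    obtain ⟨f⟩ := hiso P
    obtain ⟨g⟩ := hiso Q
    rw [h] at f
    exact ⟨f.trans g.symm⟩
  have hinj : Function.Injective
      (fun q : Quotient (combEquiv d v) => Sys q.out) := by
    intro q q' hqq
    have h1 := hkey q.out q'.out hqq
    have h2 : (combEquiv d v).r q.out q'.out := h1
    have h3 : (Quotient.mk (combEquiv d v) q.out) = Quotient.mk (combEquiv d v) q'.out :=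
      Quotient.sound h2
    rwa [Quotient.out_eq, Quotient.out_eq] at h3
  exact Finite.of_injective _ hinj

end H260R3
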