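import Pool.Agent.H260R3.PB
import Pool.Agent.H260R3.PC
import Pool.Agent.H260R3.PD
import Pool.Agent.H260R3.PG

namespace H260R3
open scoped BigOperators

private theorem ph_empty {ι J : Type} [Fintype J] (V : ι → J → ℝ) : IsFaceSet V (∅ : Set ι) := by
  refine ⟨1, 0, fun i hi => absurd hi (Set.notMem_empty i), fun i _ => ?_⟩
  unfold aff
  simp

/-- the polytope of a Good configuration -/
private noncomputable def phP {d v : ℕ} {ι : Type} [Fintype ι] (hv : Fintype.card ι = v)
    (V : ι → Fin d → ℝ) (hV : Good V) : Polytope d v := by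
  classical
  exact ⟨convexHull ℝ (Set.range V), ⟨Finset.univ.image V, by rw [Finset.coe_image, Finset.coe_univ,
    Set.image_univ]⟩, interior_hull_nonempty V hV, by
      rw [extreme_eq V hV, ← Set.image_univ, Set.ncard_image_of_injective _ (good_injective V hV),
        Set.ncard_univ, Nat.card_eq_fintype_card, hv]⟩

private theorem ph_perm {d v : ℕ} {ι : Type} [Fintype ι] (hv : Fintype.card ι = v)
    (V V' : ι → Fin d → ℝ) (hV : Good V) (hV' : Good V')
    (h : (Quotient.mk (combEquiv d v) (phP hv V hV)) = Quotient.mk (combEquiv d v) (phP hv V' hV')) :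
    ∃ π : ι ≃ ι, ∀ S : Set ι, IsFaceSet V S ↔ IsFaceSet V' (π '' S) := by
  have h1 : Nonempty (Face (convexHull ℝ (Set.range V)) ≃o Face (convexHull ℝ (Set.range V'))) :=
    Quotient.exact h
  obtain ⟨F⟩ := h1
  obtain ⟨A⟩ := faceIso V hV
  obtain ⟨B⟩ := faceIso V' hV'
  have Ψ : ({S : Set ι | IsFaceSet V S} : Set (Set ι)) ≃o ({S : Set ι | IsFaceSet V' S} : Set (Set ι)) :=
    (A.symm.trans F).trans B
  exact perm_of_iso {S : Set ι | IsFaceSet V S} {S : Set ι | IsFaceSet V' S} (ph_empty V) (ph_empty V')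
    hV.vert hV'.vert Ψ

/-- PH -/
theorem abs_count {d v m : ℕ} {ι T β : Type} [Fintype ι] [Fintype T] [Fintype β] (f : β → ι)
    (hv : Fintype.card ι = v) (hm : Fintype.card β = m) (V : T → ι → Fin d → ℝ)
    (hV : ∀ τ, Good (V τ))
    (hsep : ∀ τ τ', τ ≠ τ' → ∃ S : Set ι, S ⊆ Set.range f ∧
      ((IsFaceSet (V τ) S ∧ ¬ IsFaceSet (V τ') S) ∨ (¬ IsFaceSet (V τ) S ∧ IsFaceSet (V τ') S))) :
    Fintype.card T ≤ numTypes d v * v ^ m := by
  classical
  have := finite_types d v
  let _ : Fintype (Quotient (combEquiv d v)) := Fintype.ofFinite _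
  set cl : T → Quotient (combEquiv d v) := fun τ => Quotient.mk (combEquiv d v) (phP hv (V τ) (hV τ))
    with hcl
  have hfib : ∀ a ∈ (Finset.univ : Finset T).image cl,
      ((Finset.univ : Finset T).filter (fun x => cl x = a)).card ≤ v ^ m := by
    intro a ha
    obtain ⟨τ0, -, rfl⟩ := Finset.mem_image.1 ha
    have hπ : ∀ τ : T, cl τ = cl τ0 → ∃ π : ι ≃ ι, ∀ S : Set ι,
        IsFaceSet (V τ) S ↔ IsFaceSet (V τ0) (π '' S) := fun τ h =>
      ph_perm hv (V τ) (V τ0) (hV τ) (hV τ0) h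
    choose! π hπ using hπ
    have hcard : v ^ m = (Finset.univ : Finset (β → ι)).card := by
      rw [Finset.card_univ, Fintype.card_fun, hv, hm]
    rw [hcard]
    refine Finset.card_le_card_of_injOn (fun τ b => π τ (f b)) (fun _ _ => Finset.mem_univ _) ?_
    intro τ hτ τ' hτ' heq
    rw [Finset.mem_coe, Finset.mem_filter] at hτ hτ'
    by_contra hne
    obtain ⟨S, hS, h⟩ := hsep τ τ' hne
    have himg : π τ '' S = π τ' '' S := by
      refine Set.image_congr fun i hi => ?_
      obtain ⟨b, rfl⟩ := hS hi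
      exact congrFun heq b
    have hiff : IsFaceSet (V τ) S ↔ IsFaceSet (V τ') S := by
      rw [hπ τ hτ.2 S, hπ τ' hτ'.2 S, himg]
    rcases h with ⟨h1, h2⟩ | ⟨h1, h2⟩
    · exact h2 (hiff.1 h1)
    · exact h1 (hiff.2 h2)
  have h1 := Finset.card_le_mul_card_image (Finset.univ : Finset T) (v ^ m) hfib
  rw [Finset.card_univ] at h1
  have h2 : ((Finset.univ : Finset T).image cl).card ≤ numTypes d v := by
    unfold numTypes
    rw [Nat.card_eq_fintype_card]
    exact Finset.card_le_univ _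
  calc Fintype.card T ≤ v ^ m * ((Finset.univ : Finset T).image cl).card := h1
    _ ≤ v ^ m * numTypes d v := Nat.mul_le_mul_left _ h2
    _ = _ := Nat.mul_comm _ _

end H260R3
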