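import Pool.Agent.H260R3.Defs

namespace H260R3
open scoped BigOperators

private theorem PI_aff {J J' : Type} [Fintype J] [Fintype J'] (φ : J' ≃ J) (c : ℝ) (a : J' → ℝ)
    (x : J → ℝ) : aff c a (x ∘ φ) = aff c (a ∘ φ.symm) x := by
  unfold aff
  congr 1
  rw [← Equiv.sum_comp φ (fun k => (a ∘ φ.symm) k * x k)]
  apply Finset.sum_congr rfl
  intro k _
  simp

private theorem PI_aff' {J J' : Type} [Fintype J] [Fintype J'] (φ : J' ≃ J) (c : ℝ) (a : J → ℝ)
    (x : J → ℝ) : aff c (a ∘ φ) (x ∘ φ) = aff c a x := by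
  rw [PI_aff]
  congr 1
  funext k
  simp

/-- PI -/
theorem isFaceSet_reindex {ι J J' : Type} [Fintype J] [Fintype J'] (φ : J' ≃ J) (V : ι → J → ℝ)
    (S : Set ι) : IsFaceSet (fun i => V i ∘ φ) S ↔ IsFaceSet V S := by
  constructor
  · rintro ⟨c, a, h0, h1⟩
    refine ⟨c, a ∘ φ.symm, fun i hi => ?_, fun i hi => ?_⟩
    · rw [← PI_aff]
      exact h0 i hi
    · rw [← PI_aff]
      exact h1 i hi
  · rintro ⟨c, a, h0, h1⟩
    refine ⟨c, a ∘ φ, fun i hi => ?_, fun i hi => ?_⟩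
    · show aff c (a ∘ φ) (V i ∘ φ) = 0
      rw [PI_aff']
      exact h0 i hi
    · show 0 < aff c (a ∘ φ) (V i ∘ φ)
      rw [PI_aff']
      exact h1 i hi

/-- PI' -/
theorem good_reindex {ι J J' : Type} [Fintype J] [Fintype J'] (φ : J' ≃ J) (V : ι → J → ℝ)
    (hV : Good V) : Good (fun i => V i ∘ φ) := by
  refine ⟨fun i => (isFaceSet_reindex φ V {i}).mpr (hV.vert i), fun c a h => ?_⟩
  have h2 : ∀ i, aff c (a ∘ φ.symm) (V i) = 0 := by
    intro i
    rw [← PI_aff]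
    exact h i
  obtain ⟨hc, ha⟩ := hV.span c (a ∘ φ.symm) h2
  refine ⟨hc, ?_⟩
  funext k
  have := congrFun ha (φ k)
  simpa using this

end H260R3
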