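import Pool.Agent.H260R3.MH
import Pool.Agent.H260R3.MH2
import Pool.Agent.H260R3.MJ
import Pool.Agent.H260R3.PH
import Pool.Agent.H260R3.PI

namespace H260R3
open scoped BigOperators

private theorem mk_cardB (e p A q : ℕ) :
    Fintype.card (BLab e p A q) = 6 * e * A * q + 2 * p := by
  rw [Fintype.card_sum]
  simp only [Fintype.card_prod, Fintype.card_fin, Fintype.card_bool]
  ring

private theorem mk_cardL (e p A q n : ℕ) :
    Fintype.card (Lab e p A q n) = 6 * e * A * q + 2 * p + n := by
  rw [Fintype.card_sum, mk_cardB, Fintype.card_fin]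

private theorem mk_cardT (e p q n : ℕ) :
    Fintype.card (Fin n → Dig e p → Fin (q ^ e)) = ((q ^ e) ^ (2 * e + p)) ^ n := by
  rw [Fintype.card_pi_const, Fintype.card_pi]
  simp only [Fintype.card_fin, Finset.prod_const, Finset.card_univ]
  rw [Fintype.card_sum]
  simp only [Fintype.card_prod, Fintype.card_fin, Fintype.card_bool]
  rw [mul_comm e 2]

/-- MK: the count -/
theorem main_count (e p A q n : ℕ) (he : 2 ≤ e) (hA : 0 < A) (hq : 0 < q) (hn : n ≤ A ^ e) :
    ((q ^ e) ^ (2 * e + p)) ^ n ≤
      numTypes (2 * e + p) (6 * e * A * q + 2 * p + n) *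
        (6 * e * A * q + 2 * p + n) ^ (6 * e * A * q + 2 * p) := by
  haveI : NeZero e := ⟨by omega⟩
  set addr : Fin n → Fin e → Fin A := fun i => finFunctionFinEquiv.symm (Fin.castLE hn i)
    with haddr
  have hinj : Function.Injective addr := by
    intro i i' h
    have h1 := finFunctionFinEquiv.symm.injective h
    exact Fin.castLE_injective hn h1
  have hc : Fintype.card (Fin (2 * e + p)) = Fintype.card (Crd e p) := by
    rw [Fintype.card_sum, Fintype.card_sum]
    simp only [Fintype.card_fin]
    ring
  set φ : Fin (2 * e + p) ≃ Crd e p := Fintype.equivOfCardEq hc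
  rw [← mk_cardT e p q n]
  refine abs_count (ι := Lab e p A q n) (β := BLab e p A q) Sum.inl (mk_cardL e p A q n)
    (mk_cardB e p A q) (fun τ l => conf e p A q n addr τ l ∘ φ) ?_ ?_
  · intro τ
    apply good_reindex
    refine ⟨?_, fun c a h => conf_span e p A q n he hA hq addr τ c a h⟩
    rintro ((⟨j, u, κ, a, b⟩ | ⟨z, b⟩) | i)
    · exact conf_vert_base e p A q n he addr τ j u κ a b
    · exact conf_vert_apex e p A q n he addr τ z b
    · exact conf_vert_free e p A q n he addr hinj τ i
  · intro τ τ' hne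
    have h1 : ∃ i k, τ i k ≠ τ' i k := by
      by_contra h
      push Not at h
      exact hne (funext fun i => funext fun k => h i k)
    obtain ⟨i, k, hik⟩ := h1
    have hsub : ∀ a : Fin e → Fin q, fset (n := n) (addr i) k a ⊆ Set.range Sum.inl := by
      intro a l hl
      rcases hl with ⟨j, b, rfl⟩ | ⟨z, rfl⟩
      · exact ⟨_, rfl⟩
      · exact ⟨_, rfl⟩
    rcases lt_or_gt_of_ne hik with h | h
    · refine ⟨fset (addr i) k (finFunctionFinEquiv.symm (τ i k)), hsub _, Or.inl ⟨?_, ?_⟩⟩
      · rw [isFaceSet_reindex, read e p A q n he addr hinj, Equiv.apply_symm_apply]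
      · rw [isFaceSet_reindex, read e p A q n he addr hinj, Equiv.apply_symm_apply]
        exact not_le.2 h
    · refine ⟨fset (addr i) k (finFunctionFinEquiv.symm (τ' i k)), hsub _, Or.inr ⟨?_, ?_⟩⟩
      · rw [isFaceSet_reindex, read e p A q n he addr hinj, Equiv.apply_symm_apply]
        exact not_le.2 h
      · rw [isFaceSet_reindex, read e p A q n he addr hinj, Equiv.apply_symm_apply]

end H260R3
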