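import Pool.Agent.H260R3.Defs

namespace H260R3
open scoped BigOperators

private theorem PA_sum {ι J : Type} [Fintype ι] [Fintype J] (c : ℝ) (a : J → ℝ) (w : ι → ℝ)
    (z : ι → J → ℝ) (hw : ∑ i, w i = 1) :
    aff c a (∑ i, w i • z i) = ∑ i, w i * aff c a (z i) := by
  unfold aff
  have e1 : ∀ k, (∑ i, w i • z i) k = ∑ i, w i * z i k := by
    intro k
    rw [Finset.sum_apply]
    rfl
  simp only [e1, mul_add, Finset.sum_add_distrib, ← Finset.sum_mul, hw, one_mul]
  congr 1
  simp only [Finset.mul_sum]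
  rw [Finset.sum_comm]
  refine Finset.sum_congr rfl fun i _ => Finset.sum_congr rfl fun k _ => ?_
  ring

/-- PA -/
theorem face_hull {ι J : Type} [Fintype ι] [Fintype J] (V : ι → J → ℝ) (c : ℝ) (a : J → ℝ)
    (h0 : ∀ i, 0 ≤ aff c a (V i)) :
    {x | x ∈ convexHull ℝ (Set.range V) ∧ aff c a x = 0} =
      convexHull ℝ (V '' {i | aff c a (V i) = 0}) := by
  classical
  apply Set.Subset.antisymm
  · rintro x ⟨hx, hx0⟩
    obtain ⟨κ, _, w, z, hw0, hw1, hz, rfl⟩ := mem_convexHull_iff_exists_fintype.1 hx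
    have hz0 : ∀ i, 0 ≤ aff c a (z i) := by
      intro i
      obtain ⟨j, hj⟩ := hz i
      rw [← hj]
      exact h0 j
    rw [PA_sum c a w z hw1] at hx0
    have hzero := (Finset.sum_eq_zero_iff_of_nonneg
      (fun i _ => mul_nonneg (hw0 i) (hz0 i))).1 hx0
    have hs : ∑ i, w i • z i = ∑ i ∈ Finset.univ.filter (fun i => w i ≠ 0), w i • z i := by
      rw [Finset.sum_filter_of_ne]
      intro i _ hi h
      rw [h, zero_smul] at hi
      exact hi rfl
    have hs1 : ∑ i ∈ Finset.univ.filter (fun i => w i ≠ 0), w i = 1 := by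
      rw [← hw1, Finset.sum_filter_of_ne]
      intro i _ hi
      exact hi
    rw [hs]
    refine (convex_convexHull ℝ _).sum_mem (fun i _ => hw0 i) hs1 fun i hi => ?_
    have hwi : w i ≠ 0 := (Finset.mem_filter.1 hi).2
    obtain ⟨j, hj⟩ := hz i
    refine subset_convexHull ℝ _ ⟨j, ?_, hj⟩
    show aff c a (V j) = 0
    rw [hj]
    exact (mul_eq_zero.1 (hzero i (Finset.mem_univ i))).resolve_left hwi
  · have hconv : Convex ℝ {x : J → ℝ | aff c a x = 0} := by
      intro x hx y hy s t hs ht hst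
      have h := PA_sum c a ![s, t] ![x, y] (by simpa using hst)
      simp only [Fin.sum_univ_two, Matrix.cons_val_zero, Matrix.cons_val_one] at h
      show aff c a (s • x + t • y) = 0
      rw [h, show aff c a x = 0 from hx, show aff c a y = 0 from hy, mul_zero, mul_zero, add_zero]
    intro x hx
    refine ⟨convexHull_mono (Set.image_subset_range _ _) hx, ?_⟩
    have : convexHull ℝ (V '' {i | aff c a (V i) = 0}) ⊆ {x : J → ℝ | aff c a x = 0} := by
      apply convexHull_min _ hconv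
      rintro _ ⟨i, hi, rfl⟩
      exact hi
    exact this hx

/-- PA' -/
theorem aff_nonneg_hull {ι J : Type} [Fintype ι] [Fintype J] (V : ι → J → ℝ) (c : ℝ) (a : J → ℝ)
    (h0 : ∀ i, 0 ≤ aff c a (V i)) (x : J → ℝ) (hx : x ∈ convexHull ℝ (Set.range V)) :
    0 ≤ aff c a x := by
  obtain ⟨κ, _, w, z, hw0, hw1, hz, rfl⟩ := mem_convexHull_iff_exists_fintype.1 hx
  rw [PA_sum c a w z hw1]
  refine Finset.sum_nonneg fun i _ => mul_nonneg (hw0 i) ?_
  obtain ⟨j, hj⟩ := hz i
  rw [← hj]
  exact h0 j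

end H260R3
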