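import Pool.Agent.H260R3.PA

namespace H260R3
open scoped BigOperators

private theorem lin_eq {d : ℕ} (l : StrongDual ℝ (Fin d → ℝ)) (x : Fin d → ℝ) :
    l x = ∑ k, l (Pi.single k 1) * x k := by
  have h := LinearMap.pi_apply_eq_sum_univ (l : (Fin d → ℝ) →ₗ[ℝ] ℝ) x
  rw [ContinuousLinearMap.coe_coe] at h
  rw [h]
  apply Finset.sum_congr rfl
  intro k _
  rw [smul_eq_mul, mul_comm]
  congr 2
  funext j
  simp [Pi.single_apply, eq_comm]

private theorem claimA {ι : Type} [Fintype ι] {d : ℕ} (V : ι → Fin d → ℝ)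
    (F : Set (Fin d → ℝ)) (hF : IsExposed ℝ (convexHull ℝ (Set.range V)) F) :
    IsFaceSet V {i | V i ∈ F} ∧ F = convexHull ℝ (V '' {i | V i ∈ F}) := by
  have hVP : ∀ i, V i ∈ convexHull ℝ (Set.range V) := fun i =>
    subset_convexHull ℝ _ ⟨i, rfl⟩
  by_cases hne : F.Nonempty
  · obtain ⟨l, hl⟩ := hF hne
    obtain ⟨x0, hx0⟩ := hne
    have hx0' := hx0
    rw [hl] at hx0'
    have haff : ∀ x, aff (l x0) (fun k => -l (Pi.single k 1)) x = l x0 - l x := by
      intro x
      unfold aff
      rw [lin_eq l x]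
      simp only [neg_mul, Finset.sum_neg_distrib]
      ring
    have hFeq : F = {x | x ∈ convexHull ℝ (Set.range V) ∧
        aff (l x0) (fun k => -l (Pi.single k 1)) x = 0} := by
      ext x
      rw [Set.mem_ofPred_eq, haff]
      constructor
      · intro hx
        rw [hl] at hx
        refine ⟨hx.1, ?_⟩
        have h1 := hx.2 x0 hx0'.1
        have h2 := hx0'.2 x hx.1
        linarith
      · rintro ⟨hx, h⟩
        rw [hl]
        refine ⟨hx, fun y hy => ?_⟩
        have := hx0'.2 y hy
        linarith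
    have h0 : ∀ i, 0 ≤ aff (l x0) (fun k => -l (Pi.single k 1)) (V i) := by
      intro i
      rw [haff]
      have := hx0'.2 (V i) (hVP i)
      linarith
    have hS : {i | V i ∈ F} = {i | aff (l x0) (fun k => -l (Pi.single k 1)) (V i) = 0} := by
      ext i
      rw [Set.mem_ofPred_eq, Set.mem_ofPred_eq]
      constructor
      · intro h
        rw [hFeq] at h
        exact h.2
      · intro h
        rw [hFeq]
        exact ⟨hVP i, h⟩
    refine ⟨⟨l x0, fun k => -l (Pi.single k 1), fun i hi => ?_, fun i hi => ?_⟩, ?_⟩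
    · rw [hS] at hi
      exact hi
    · rw [hS] at hi
      exact lt_of_le_of_ne (h0 i) (fun h => hi h.symm)
    · rw [hS, ← face_hull V _ _ h0]
      exact hFeq
  · rw [Set.not_nonempty_iff_eq_empty] at hne
    subst hne
    constructor
    · refine ⟨1, 0, fun i hi => absurd hi (by simp), fun i _ => ?_⟩
      simp [aff]
    · simp

private theorem claimB {ι : Type} [Fintype ι] {d : ℕ} (V : ι → Fin d → ℝ) (S : Set ι)
    (hS : IsFaceSet V S) : IsExposed ℝ (convexHull ℝ (Set.range V)) (convexHull ℝ (V '' S)) ∧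
      {i | V i ∈ convexHull ℝ (V '' S)} = S := by
  have hVP : ∀ i, V i ∈ convexHull ℝ (Set.range V) := fun i =>
    subset_convexHull ℝ _ ⟨i, rfl⟩
  obtain ⟨c, a, h1, h2⟩ := hS
  have h0 : ∀ i, 0 ≤ aff c a (V i) := by
    intro i
    by_cases hi : i ∈ S
    · rw [h1 i hi]
    · exact (h2 i hi).le
  have hSeq : {i | aff c a (V i) = 0} = S := by
    ext i
    rw [Set.mem_ofPred_eq]
    constructor
    · intro h
      by_contra hi
      exact (h2 i hi).ne' h
    · exact h1 i
  have hF := face_hull V c a h0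
  rw [hSeq] at hF
  constructor
  · intro hne
    obtain ⟨x0, hx0⟩ := hne
    rw [← hF] at hx0
    refine ⟨-∑ k, a k • ContinuousLinearMap.proj (R := ℝ) (φ := fun _ : Fin d => ℝ) k, ?_⟩
    have hl : ∀ x : Fin d → ℝ, (-∑ k, a k • ContinuousLinearMap.proj (R := ℝ)
        (φ := fun _ : Fin d => ℝ) k) x = c - aff c a x := by
      intro x
      unfold aff
      rw [ContinuousLinearMap.neg_apply, ContinuousLinearMap.sum_apply]
      simp
    rw [← hF]
    ext x
    rw [Set.mem_ofPred_eq, Set.mem_ofPred_eq]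
    refine and_congr_right fun hx => ?_
    simp only [hl]
    constructor
    · intro h y hy
      have := aff_nonneg_hull V c a h0 y hy
      linarith
    · intro h
      have h3 := h x0 hx0.1
      have h4 := hx0.2
      have h5 := aff_nonneg_hull V c a h0 x hx
      linarith
  · ext i
    rw [Set.mem_ofPred_eq, ← hF, Set.mem_ofPred_eq]
    constructor
    · intro h
      rw [← hSeq]
      exact h.2
    · intro h
      exact ⟨hVP i, h1 i h⟩

/-- PB -/
theorem faceIso {ι : Type} [Fintype ι] {d : ℕ} (V : ι → Fin d → ℝ) (hV : Good V) :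
    Nonempty (Face (convexHull ℝ (Set.range V)) ≃o {S : Set ι // IsFaceSet V S}) := by
  refine ⟨⟨⟨fun F => ⟨{i | V i ∈ F.1}, (claimA V F.1 F.2).1⟩,
    fun S => ⟨convexHull ℝ (V '' S.1), (claimB V S.1 S.2).1⟩, fun F => ?_, fun S => ?_⟩, ?_⟩⟩
  · exact Subtype.ext (claimA V F.1 F.2).2.symm
  · exact Subtype.ext (claimB V S.1 S.2).2
  · intro F F'
    constructor
    · intro h
      show F.1 ⊆ F'.1
      rw [(claimA V F.1 F.2).2, (claimA V F'.1 F'.2).2]
      exact convexHull_mono (Set.image_mono h)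
    · intro h i hi
      exact h hi

end H260R3
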